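import Pool.Agent.MP_36f78e_lc.H24N.Spec
import Pool.Agent.MP_36f78e_lc.H46.Basic
import Pool.Agent.MP_36f78e_lc.H46.Big

/-! Auxiliary facts: constants, forms, and vectors with few bad checks. -/

set_option linter.unusedSectionVars false

namespace Pool.Agent.MP_36f78e_lc.H24N

open Matrix Finset H46
open scoped ComplexOrder Kronecker

namespace Big2

theorem consts (m : ℝ) (hm : 1 ≤ m) (k : ℕ) (γ : ℝ) (hγ : 0 < γ) :
    ∃ (β δ : ℝ) (n₀ : ℕ), 0 < β ∧ β ≤ γ ∧ 0 < δ ∧ ∀ n : ℕ, n₀ ≤ n → 0 < n ∧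
      (∃ d : ℕ, n ≤ 2 * d ^ 2 ∧ (d : ℝ) ≤ γ * n) ∧ ∃ b r : ℕ, (b : ℝ) ≤ γ * n ∧ β * n ≤ b + 1 ∧
        ((r * k ^ 3 : ℕ) : ℝ) ≤ γ * n ∧
        (4 * m) ^ (2 * b) * (1 - 1 / (2 * m)) ^ r ≤ (1 / (200 * Real.exp (δ * n))) ^ 2 := by
  have hk : (0 : ℝ) < ((k : ℝ) + 1) ^ 3 := by positivity
  obtain ⟨g, hg⟩ : ∃ g, g = γ / ((k : ℝ) + 1) ^ 3 / (2 * m) := ⟨_, rfl⟩
  have g0 : 0 < g := by rw [hg]; positivity
  obtain ⟨L, hL⟩ : ∃ L, L = Real.log (4 * m) := ⟨_, rfl⟩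
  have L0 : 0 < L := by rw [hL]; exact Real.log_pos (by linarith)
  obtain ⟨n₀, hn⟩ := exists_nat_ge (80000 / g + 4 / γ ^ 2 + 2 / γ)
  refine ⟨min γ (g / (8 * L)), g / 8, n₀, by positivity, min_le_left _ _, by positivity,
    fun n h => ?_⟩
  have h' : 80000 / g + 4 / γ ^ 2 + 2 / γ ≤ n := hn.trans (Nat.cast_le.2 h)
  have p1 : 0 < 80000 / g := by positivity
  have p2 : 0 < 4 / γ ^ 2 := by positivity
  have p3 : 0 < 2 / γ := by positivity
  have n0 : (0 : ℝ) < n := by linarith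
  have a1 : 80000 ≤ n * g := (div_le_iff₀ g0).1 (by linarith)
  have a2 : 4 ≤ n * γ ^ 2 := (div_le_iff₀ (by positivity)).1 (by linarith)
  have a3 : 2 ≤ n * γ := (div_le_iff₀ hγ).1 (by linarith)
  refine ⟨Nat.cast_pos.1 n0, ⟨n.sqrt + 1, by nlinarith [Nat.lt_succ_sqrt n], ?_⟩,
    ⌊min γ (g / (8 * L)) * n⌋₊, ⌊γ / ((k : ℝ) + 1) ^ 3 * n⌋₊, ?_, (Nat.lt_floor_add_one _).le,
    ?_, ?_⟩
  · have s1 : ((n.sqrt : ℝ)) ^ 2 ≤ n := by exact_mod_cast Nat.sqrt_le' n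
    have s2 : (n.sqrt : ℝ) ≤ γ * n / 2 := by
      refine abs_le_of_sq_le_sq' ?_ (by positivity) |>.2
      nlinarith
    push_cast
    linarith
  · exact (Nat.floor_le (by positivity)).trans
      (mul_le_mul_of_nonneg_right (min_le_left _ _) n0.le)
  · have s1 := Nat.floor_le (a := γ / ((k : ℝ) + 1) ^ 3 * n) (by positivity)
    have s2 : (k : ℝ) ^ 3 ≤ ((k : ℝ) + 1) ^ 3 := by gcongr; linarith
    push_cast
    calc _ ≤ γ / ((k : ℝ) + 1) ^ 3 * n * ((k : ℝ) + 1) ^ 3 := by gcongr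
      _ = _ := by field_simp
  · generalize hb : ⌊min γ (g / (8 * L)) * n⌋₊ = b
    generalize hr : ⌊γ / ((k : ℝ) + 1) ^ 3 * n⌋₊ = r
    have b1 : (b : ℝ) ≤ g / (8 * L) * n := hb ▸ (Nat.floor_le (by positivity)).trans
      (mul_le_mul_of_nonneg_right (min_le_right _ _) n0.le)
    have b2 : 2 * (b : ℝ) * L ≤ g * n / 4 := by
      calc _ ≤ 2 * (g / (8 * L) * n) * L := by gcongr
        _ = _ := by field_simp; ring
    have r1 : γ / ((k : ℝ) + 1) ^ 3 * n ≤ r + 1 := hr ▸ (Nat.lt_floor_add_one _).le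
    have m0 : 0 < 2 * m := by linarith
    have m1 : 1 / (2 * m) ≤ 1 / 2 := one_div_le_one_div_of_le (by norm_num) (by linarith)
    have r2 : g * n ≤ r * (1 / (2 * m)) + 1 / 2 := by
      calc g * n = γ / ((k : ℝ) + 1) ^ 3 * n * (1 / (2 * m)) := by rw [hg]; ring
        _ ≤ (r + 1) * (1 / (2 * m)) := by gcongr
        _ ≤ _ := by linarith
    have e1 : (4 * m) ^ (2 * b) = Real.exp (2 * (b : ℝ) * L) := by
      rw [hL, ← Real.exp_log (x := (4 * m) ^ (2 * b)) (by positivity), Real.log_pow]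
      push_cast
      rfl
    have e2 : (1 - 1 / (2 * m)) ^ r ≤ Real.exp (-(r * (1 / (2 * m)))) := by
      rw [← mul_neg, Real.exp_nat_mul]
      exact pow_le_pow_left₀ (by linarith) (by linarith [Real.add_one_le_exp (-(1 / (2 * m)))]) r
    have e3 : 40000 ≤ Real.exp (g * n / 2 - 1 / 2) := by
      linarith [Real.add_one_le_exp (g * n / 2 - 1 / 2)]
    have e4 : Real.exp (g * n / 2 - 1 / 2) * (Real.exp (2 * (b : ℝ) * L) *
        Real.exp (-(r * (1 / (2 * m)))) * Real.exp (g / 8 * n) ^ 2) ≤ 1 := by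
      rw [sq, ← Real.exp_add, ← Real.exp_add, ← Real.exp_add, ← Real.exp_add]
      exact Real.exp_le_one_iff.2 (by linarith)
    rw [e1, div_pow, le_div_iff₀ (by positivity)]
    calc _ ≤ Real.exp (2 * (b : ℝ) * L) * Real.exp (-(r * (1 / (2 * m)))) *
          (200 * Real.exp (g / 8 * n)) ^ 2 := by gcongr
      _ = 40000 * (Real.exp (2 * (b : ℝ) * L) * Real.exp (-(r * (1 / (2 * m)))) *
          Real.exp (g / 8 * n) ^ 2) := by ring
      _ ≤ _ := by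
        rw [one_pow]
        exact (mul_le_mul_of_nonneg_right e3 (by positivity)).trans e4

section Forms

variable {Y : Type} [Fintype Y] [DecidableEq Y]

theorem form_conj (T A : Matrix Y Y ℂ) (g : Y → ℂ) :
    star (Tᴴ *ᵥ g) ⬝ᵥ (A *ᵥ (Tᴴ *ᵥ g)) = star g ⬝ᵥ ((T * A * Tᴴ) *ᵥ g) := by
  rw [star_mulVec, conjTranspose_conjTranspose, ← mulVec_mulVec, ← mulVec_mulVec,
    dotProduct_mulVec (star g)]

theorem form_phase (A : Matrix Y Y ℂ) (φ g : Y → ℂ) (hφ : ∀ y, ‖φ y‖ = 1)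
    (h : ∀ y y', g y ≠ 0 → g y' ≠ 0 → A y y' ≠ 0 → φ y = φ y') :
    star (diagonal φ *ᵥ g) ⬝ᵥ (A *ᵥ (diagonal φ *ᵥ g)) = star g ⬝ᵥ (A *ᵥ g) := by
  have e : diagonal φ *ᵥ g = fun y => φ y * g y := funext fun y => mulVec_diagonal _ _ _
  rw [e]
  simp only [dotProduct, mulVec, mul_sum, Pi.star_apply]
  refine sum_congr rfl fun y _ => sum_congr rfl fun y' _ => ?_
  by_cases h1 : g y = 0
  · simp [h1]
  by_cases h2 : g y' = 0
  · simp [h2]
  by_cases h3 : A y y' = 0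
  · simp [h3]
  have h4 : star (φ y') * φ y' = 1 := by
    rw [Complex.star_def, Complex.conj_mul', hφ]
    simp
  rw [h y y' h1 h2 h3, star_mul']
  linear_combination (star (g y) * A y y' * g y') * h4

theorem qf_fam {P : Type} [Fintype P] (c : P → ℂ) (O : P → Matrix Y Y ℂ) (w w' : Y → ℂ) (θ : ℝ)
    (h : ∀ a, ‖star w' ⬝ᵥ (O a *ᵥ w') - star w ⬝ᵥ (O a *ᵥ w)‖ ≤ θ) :
    qf (∑ a, c a • O a) w' ≤ qf (∑ a, c a • O a) w + (∑ a, ‖c a‖) * θ := by
  have e : ∀ x : Y → ℂ, star x ⬝ᵥ ((∑ a, c a • O a) *ᵥ x) = ∑ a, c a * (star x ⬝ᵥ (O a *ᵥ x)) :=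
    fun x => by simp only [sum_mulVec, dotProduct_sum, smul_mulVec, dotProduct_smul, smul_eq_mul]
  rw [← sub_le_iff_le_add', qf, qf, e, e, ← Complex.sub_re, ← sum_sub_distrib, sum_mul]
  refine (Complex.re_le_norm _).trans ((norm_sum_le _ _).trans (sum_le_sum fun a _ => ?_))
  rw [← mul_sub, norm_mul]
  exact mul_le_mul_of_nonneg_left (h a) (norm_nonneg _)

theorem one_side {K G : Matrix Y Y ℂ} (k1 : K.PosSemidef) (k2 : ∀ u, qf K u ≤ 6 * nsq u)
    (hG : G ∈ unitaryGroup Y ℂ) {v u : Y → ℂ} (k4 : K *ᵥ v = 0) (h : nsq (v - u) ≤ 1 / 500)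
    (h' : qf K (G *ᵥ u) ≤ qf K u + 1 / 100) : qf K (G *ᵥ v) ≤ 1 / 12 := by
  have e1 : G *ᵥ v = G *ᵥ u + G *ᵥ (v - u) := by rw [mulVec_sub, add_sub_cancel]
  have e2 := qf_add_le k1 (G *ᵥ u) (G *ᵥ (v - u))
  have e3 := k2 (G *ᵥ (v - u))
  rw [nsq_unitary hG] at e3
  have e4 : qf K u = qf K (v - u) := by
    have h1 : star v ⬝ᵥ (K *ᵥ u) = 0 := by
      rw [dotProduct_mulVec, ← k1.1, ← star_mulVec, k4, star_zero, zero_dotProduct]
    rw [qf, qf, mulVec_sub, k4, zero_sub, star_sub, dotProduct_neg, sub_dotProduct, h1, zero_sub,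
      neg_neg]
  have e5 := k2 (v - u)
  rw [e1]
  linarith

/-- Markov's inequality for the cut of a vector. -/
theorem markov (f : Y → ℝ) (hf : ∀ y, 0 ≤ f y) (good : Y → Prop) [DecidablePred good] (t : ℝ)
    (h : ∀ y, ¬ good y → t ≤ f y) (v : Y → ℂ) :
    t * nsq (v - fun y => (if good y then 1 else 0) * v y) ≤ ∑ y, f y * ‖v y‖ ^ 2 := by
  rw [nsq, mul_sum]
  refine sum_le_sum fun y _ => ?_
  by_cases hy : good y
  · simpa [hy] using mul_nonneg (hf y) (sq_nonneg _)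
  · simpa [hy] using mul_le_mul_of_nonneg_right (h y hy) (sq_nonneg ‖v y‖)

theorem nsq_cut (good : Y → Prop) [DecidablePred good] (v : Y → ℂ) :
    nsq (fun y => (if good y then 1 else 0) * v y) ≤ nsq v :=
  sum_le_sum fun y _ => by by_cases hy : good y <;> simp [hy]

/-- The projector on a unit vector. -/
theorem line {v : Y → ℂ} (hv : nsq v = 1) : ∃ Pr : Matrix Y Y ℂ, Proj Pr ∧ Pr.trace = 1 ∧
    (∀ u, Pr *ᵥ u = (star v ⬝ᵥ u) • v) ∧
    ∀ u, nsq (u - Pr *ᵥ u) = nsq u - ‖star v ⬝ᵥ u‖ ^ 2 := by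
  have h1 : star v ⬝ᵥ v = 1 := by rw [nsq_eq, hv, Complex.ofReal_one]
  have h2 : ∀ u, vecMulVec v (star v) *ᵥ u = (star v ⬝ᵥ u) • v := fun u => by
    funext y
    simp only [mulVec, dotProduct, vecMulVec_apply, Pi.smul_apply, smul_eq_mul, sum_mul]
    exact sum_congr rfl fun _ _ => by ring
  have h3 : Proj (vecMulVec v (star v)) := by
    refine ⟨?_, ext_iff_mulVec.2 fun u => ?_⟩
    · ext y y'
      simp [vecMulVec_apply, mul_comm]
    · rw [← mulVec_mulVec, h2, h2, dotProduct_smul, h1, smul_eq_mul, mul_one]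
  refine ⟨_, h3, ?_, h2, fun u => ?_⟩
  · rw [trace_vecMulVec, dotProduct_comm, h1]
  · have h4 := h3.nsq_split u
    rw [← h4, h2, nsq_smul, hv]
    ring

end Forms

variable {p : ℕ} [Fact p.Prime] {V J Ω : Type} [Fintype V] [DecidableEq V] [Fintype J] [Fintype Ω]
  [DecidableEq Ω]

theorem four_symm (ξ x : V → ZMod p) : four p V ξ x = four p V x ξ := by
  simp only [four, of_apply, dotProduct_comm]

theorem uni : four p V ⊗ₖ (1 : Matrix Ω Ω ℂ) ∈ unitaryGroup ((V → ZMod p) × Ω) ℂ := by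
  rw [mem_unitaryGroup_iff', star_eq_conjTranspose, conjTranspose_kronecker, ← mul_kronecker_mul,
    conjTranspose_one, mul_one, ← star_eq_conjTranspose,
    mem_unitaryGroup_iff'.1 (four_ok p V).1, one_kronecker_one]

/-- Multiplication by an invariant function keeps the number of bad checks. -/
theorem low_mul (h1 : OddStmt) (C : Code p V J) (val : V → Ω → Prop) (b : ℕ)
    (φ : (V → ZMod p) → ℂ) (hφ : ∀ j, ∀ l ∈ perp (C.K true j), ∀ x, φ (x + l) = φ x)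
    {u : (V → ZMod p) × Ω → ℂ} (hu : Low C val b u) : Low C val b fun y => φ y.1 * u y := by
  intro y hy
  have e1 : (fun y : (V → ZMod p) × Ω => φ y.1 * u y) =
      (diagonal φ ⊗ₖ (1 : Matrix Ω Ω ℂ)) *ᵥ ((four p V ⊗ₖ (1 : Matrix Ω Ω ℂ))ᴴ *ᵥ
        ((four p V ⊗ₖ (1 : Matrix Ω Ω ℂ)) *ᵥ u)) := by
    rw [mulVec_mulVec u, ← star_eq_conjTranspose, mem_unitaryGroup_iff'.1 uni, one_mulVec,
      Big.diag_kron]
    funext y
    rw [mulVec_diagonal]
  rw [e1, mulVec_mulVec, mulVec_mulVec, conjTranspose_kronecker, ← mul_kronecker_mul,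
    ← mul_kronecker_mul, conjTranspose_one, mul_one, mul_one] at hy
  obtain ⟨y', -, e⟩ := exists_ne_zero_of_sum_ne_zero hy
  have e2 : (four p V * diagonal φ * (four p V)ᴴ) y.1 y'.1 * (1 : Matrix Ω Ω ℂ) y.2 y'.2 ≠ 0 :=
    left_ne_zero_of_mul e
  have e3 : y.2 = y'.2 := by_contra fun h => right_ne_zero_of_mul e2 (one_apply_ne h)
  have e4 : ((four p V)ᴴ * diagonal φ * four p V) y'.1 y.1 ≠ 0 := fun h =>
    left_ne_zero_of_mul e2 (by
      rw [← h, mul_apply, mul_apply]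
      refine sum_congr rfl fun x _ => ?_
      rw [mul_diagonal, mul_diagonal, conjTranspose_apply, conjTranspose_apply, four_symm y.1,
        four_symm y'.1]
      ring)
  have e5 : ∀ j, y'.1 - y.1 ∈ C.K true j := fun j => (h1 p V _).1 _ fun l hl => by
    rw [dotProduct_comm]
    exact (four_ok p V).2.2.1 φ l _ _ 0 (fun ξ => by simp [hφ j l hl]) e4
  refine le_trans (le_of_eq ?_) (hu y' (right_ne_zero_of_mul e))
  have e6 : ∀ j, y.1 ∈ C.K true j ↔ y'.1 ∈ C.K true j := fun j => by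
    rw [← (C.K true j).add_mem_iff_left (e5 j), add_sub_cancel]
  unfold nbad
  congr 1
  ext j
  simp only [mem_filter, e3, e6]

open Classical in
/-- The mass of the bad checks. -/
theorem mass {C : Code p V J} (hE : Extra C) (val : V → Ω → Prop) (z : V → ZMod p → Ω → Prop)
    (hz : ∀ q a ω, z q a ω → ¬ val q ω → a = 0) {v : (V → ZMod p) × Ω → ℂ}
    (hv : ∀ y, v y ≠ 0 → ∀ q, z q (y.1 q) y.2) :
    ∑ y, (nbad C val y : ℝ) * ‖((four p V ⊗ₖ (1 : Matrix Ω Ω ℂ)) *ᵥ v) y‖ ^ 2 ≤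
      2 * ∑ y, (viol (C.K true) y.1 : ℝ) * ‖((four p V ⊗ₖ (1 : Matrix Ω Ω ℂ)) *ᵥ v) y‖ ^ 2 := by
  obtain ⟨f, hf⟩ : ∃ f : (V → ZMod p) × Ω → ℝ,
      ∀ y, f y = ‖((four p V ⊗ₖ (1 : Matrix Ω Ω ℂ)) *ᵥ v) y‖ ^ 2 := ⟨_, fun _ => rfl⟩
  have f0 : ∀ y, 0 ≤ f y := fun y => hf y ▸ sq_nonneg _
  have sh : ∀ q ω, ¬ val q ω → ∀ ξ, f (ξ + Pi.single q 1, ω) = f (ξ, ω) := fun q ω h ξ => by
    rw [hf, hf]
    congr 2
    refine sum_congr rfl fun y _ => ?_
    by_cases h1 : v y = 0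
    · simp [h1]
    by_cases h2 : ω = y.2
    · have h3 := hz q _ _ (hv y h1 q) (h2 ▸ h)
      simp only [kroneckerMap_apply]
      rw [four_symm (ξ + _), Four.four_add, four_symm y.1, dotProduct_single, h3]
      simp
    · simp [kroneckerMap_apply, one_apply_ne h2]
  simp only [← hf, nbad, viol, card_filter, Nat.cast_sum, sum_mul, mul_sum]
  rw [sum_comm, sum_comm (t := (univ : Finset J))]
  refine sum_le_sum fun j _ => ?_
  rw [Fintype.sum_prod_type_right, Fintype.sum_prod_type_right]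
  refine sum_le_sum fun ω _ => ?_
  by_cases h : ∀ q ∈ C.S true j, val q ω
  · refine sum_le_sum fun ξ _ => ?_
    by_cases h' : ξ ∈ C.K true j
    · rw [if_neg (not_not.2 ⟨h', h⟩), if_neg (not_not.2 h')]
      simp
    · simp only [h', false_and, not_false_eq_true, if_true]
      push_cast
      linarith [f0 (ξ, ω)]
  · push Not at h
    obtain ⟨q, hq, h⟩ := h
    have he : (Pi.single q 1 : V → ZMod p) ∉ C.K true j := fun h1 => by
      simpa using hE.dist j _ h1 q q (fun v _ h2 _ => Pi.single_eq_of_ne h2 _) q hq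
    obtain ⟨ind, hi⟩ : ∃ ind : (V → ZMod p) → ℝ, ∀ ξ, ind ξ = if ξ ∈ C.K true j then 0 else 1 :=
      ⟨_, fun _ => rfl⟩
    have h2 := Equiv.sum_comp (Equiv.addRight (Pi.single q 1 : V → ZMod p))
      fun ξ => ind ξ * f (ξ, ω)
    simp only [Equiv.coe_addRight, sh q ω h] at h2
    calc _ ≤ ∑ ξ, (ind (ξ + Pi.single q 1) * f (ξ, ω) + ind ξ * f (ξ, ω)) := by
          refine sum_le_sum fun ξ _ => ?_
          have h3 : ¬ (ξ + Pi.single q 1 ∈ C.K true j ∧ ξ ∈ C.K true j) := fun h4 =>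
            he (((C.K true j).add_mem_iff_right h4.2).1 h4.1)
          have := f0 (ξ, ω)
          rw [hi, hi]
          split_ifs <;>
            first | exact absurd ⟨by assumption, by assumption⟩ h3 | (push_cast; linarith)
      _ = _ := by
          rw [sum_add_distrib, h2, ← sum_add_distrib]
          refine sum_congr rfl fun ξ _ => ?_
          by_cases h' : ξ ∈ C.K true j <;> simp [hi, h', two_mul]

end Big2

end Pool.Agent.MP_36f78e_lc.H24N
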