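import Pool.Agent.MP_36f78e_lc.H24N.Big2a
import Pool.Agent.MP_36f78e_lc.H46.Cheb
import Pool.Agent.MP_36f78e_lc.H46.Heis

/-! A vector with an approximate projector of small norm has large energy. -/

set_option linter.unusedSectionVars false

namespace Pool.Agent.MP_36f78e_lc.H24N

open Matrix Finset H46
open scoped ComplexOrder Kronecker

namespace Big2

variable {p : ℕ} [Fact p.Prime] {V J Ω : Type} [Fintype V] [DecidableEq V] [Fintype J] [Fintype Ω]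
  [DecidableEq Ω]

theorem dg_vec (C : Code p V J) (s : Bool) (t : ℕ) (g : (V → ZMod p) × Ω → ℂ) :
    Big.dg Ω C s ^ t *ᵥ g = fun y => ZMod.stdAddChar (C.l s y.1) ^ t * g y := by
  funext y
  rw [Big.dg, diagonal_pow, mulVec_diagonal, Pi.pow_apply]

theorem phase {C : Code p V J} {k n : ℕ} {γ : ℝ} (hC : C.Good k γ) (s : Bool)
    {A : Matrix ((V → ZMod p) × Ω) ((V → ZMod p) × Ω) ℂ} (hA : A ∈ Big.Bd p V Ω n)
    (hn : (n : ℝ) ≤ γ * Fintype.card V) {g : (V → ZMod p) × Ω → ℂ}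
    (hg : ∀ y, g y ≠ 0 → (viol (C.K s) y.1 : ℝ) ≤ γ * Fintype.card V) (t : ℕ) :
    star (Big.dg Ω C s ^ t *ᵥ g) ⬝ᵥ (A *ᵥ (Big.dg Ω C s ^ t *ᵥ g)) = star g ⬝ᵥ (A *ᵥ g) := by
  rw [Big.dg, diagonal_pow]
  refine form_phase A _ g (fun y => by simp) fun y y' a b c => ?_
  rw [Pi.pow_apply, Pi.pow_apply,
    hC.l_near s _ _ (hg y a) (hg y' b) ((Nat.cast_le.2 (hA y y' c)).trans hn)]

/-- The label phases change the form of the approximate projector only a little. -/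
theorem side {P : Type} [Fintype P] {C : Code p V J} {k d : ℕ} {γ : ℝ} (hC : C.Good k γ)
    (s : Bool) (T K : Matrix ((V → ZMod p) × Ω) ((V → ZMod p) × Ω) ℂ)
    (O : P → Matrix ((V → ZMod p) × Ω) ((V → ZMod p) × Ω) ℂ) (sup : P → Finset V) (c : P → ℂ)
    (hK : T * K * Tᴴ ∈ Big.Bd p V Ω d) (hd : (d : ℝ) ≤ γ * Fintype.card V)
    (hO : ∀ a, T * O a * Tᴴ ∈ Big.Bd p V Ω (sup a).card) {g : (V → ZMod p) × Ω → ℂ}
    (hg : ∀ y, g y ≠ 0 → (viol (C.K s) y.1 : ℝ) ≤ γ * Fintype.card V) (t : ℕ) {η : ℝ}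
    (η0 : 0 ≤ η) (hη : (∑ a, ‖c a‖) * (2 * η) ≤ 1 / 100)
    (b1 : ∀ a, γ * Fintype.card V < (sup a).card → ‖star (Tᴴ *ᵥ g) ⬝ᵥ (O a *ᵥ (Tᴴ *ᵥ g))‖ ≤ η)
    (b2 : ∀ a, γ * Fintype.card V < (sup a).card → ‖star (Tᴴ *ᵥ (Big.dg Ω C s ^ t *ᵥ g)) ⬝ᵥ
      (O a *ᵥ (Tᴴ *ᵥ (Big.dg Ω C s ^ t *ᵥ g)))‖ ≤ η) :
    qf (K + ∑ a, c a • O a) (Tᴴ *ᵥ (Big.dg Ω C s ^ t *ᵥ g)) ≤
      qf (K + ∑ a, c a • O a) (Tᴴ *ᵥ g) + 1 / 100 := by
  have e1 : qf K (Tᴴ *ᵥ (Big.dg Ω C s ^ t *ᵥ g)) = qf K (Tᴴ *ᵥ g) := by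
    rw [qf, qf, form_conj, form_conj, phase hC s hK hd hg]
  have e2 := qf_fam c O (Tᴴ *ᵥ g) (Tᴴ *ᵥ (Big.dg Ω C s ^ t *ᵥ g)) (2 * η) fun a => by
    rcases le_or_gt ((sup a).card : ℝ) (γ * Fintype.card V) with h | h
    · rw [form_conj, form_conj, phase hC s (hO a) h hg, sub_self, norm_zero]
      linarith
    · linarith [norm_sub_le (star (Tᴴ *ᵥ (Big.dg Ω C s ^ t *ᵥ g)) ⬝ᵥ
        (O a *ᵥ (Tᴴ *ᵥ (Big.dg Ω C s ^ t *ᵥ g)))) (star (Tᴴ *ᵥ g) ⬝ᵥ (O a *ᵥ (Tᴴ *ᵥ g))),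
        b1 a h, b2 a h]
  rw [qf_add, qf_add, e1]
  linarith

theorem bl_bd {S : Finset V} {A : Matrix ((V → ZMod p) × Ω) ((V → ZMod p) × Ω) ℂ} (h : BL S A) :
    A ∈ Big.Bd p V Ω S.card ∧ (four p V ⊗ₖ (1 : Matrix Ω Ω ℂ)) * A *
      (four p V ⊗ₖ (1 : Matrix Ω Ω ℂ))ᴴ ∈ Big.Bd p V Ω S.card :=
  ⟨fun y y' e => Big.wt_le fun v hv => sub_eq_zero.2 (h.1 y y' e v hv), fun y y' e =>
    Big.wt_le fun v hv => sub_eq_zero.2 ((four_ok p V).2.2.2 Ω _ _ h y y' e v hv)⟩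

open Classical in
/-- The banded approximate projector of the site conditions. -/
theorem sites (z : V → ZMod p → Ω → Prop) {d : ℕ} (h0 : 0 < Fintype.card V)
    (hd : Fintype.card V ≤ 2 * d ^ 2) :
    ∃ K : Matrix ((V → ZMod p) × Ω) ((V → ZMod p) × Ω) ℂ, K ∈ Big.Bd p V Ω d ∧
      (four p V ⊗ₖ (1 : Matrix Ω Ω ℂ)) * K * (four p V ⊗ₖ (1 : Matrix Ω Ω ℂ))ᴴ ∈ Big.Bd p V Ω d ∧
      K.PosSemidef ∧ (∀ u, qf K u ≤ 3 * nsq u) ∧
      (∀ v : (V → ZMod p) × Ω → ℂ, (∀ y, v y ≠ 0 → ∀ q, z q (y.1 q) y.2) → K *ᵥ v = 0) ∧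
      ∀ u : (V → ZMod p) × Ω → ℂ, nsq u -
        ∑ y ∈ univ.filter (fun y : (V → ZMod p) × Ω => ∀ q, z q (y.1 q) y.2), ‖u y‖ ^ 2 ≤
          qf K u := by
  obtain ⟨U, hU⟩ : ∃ U, U = four p V ⊗ₖ (1 : Matrix Ω Ω ℂ) := ⟨_, rfl⟩
  have uu : U ∈ unitaryGroup _ ℂ := hU ▸ uni
  have u1 : Uᴴ * U = 1 := mem_unitaryGroup_iff'.1 uu
  have u2 : U * Uᴴ = 1 := mem_unitaryGroup_iff.1 uu
  have pj : ∀ (g : (V → ZMod p) × Ω → Prop) [DecidablePred g],
      Proj (diagonal fun y => if g y then (0 : ℂ) else 1) := fun g _ =>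
    ⟨by
      rw [diagonal_conjTranspose]
      exact congrArg _ (funext fun y => by by_cases h : g y <;> simp [h]), by
      rw [diagonal_mul_diagonal]
      exact congrArg _ (funext fun y => by by_cases h : g y <;> simp [h])⟩
  have ker : ∀ v : (V → ZMod p) × Ω → ℂ,
      (diagonal fun y => if ¬ ∀ q, z q (y.1 q) y.2 then (0 : ℂ) else 1) *ᵥ v = v ↔
        ∀ y, v y ≠ 0 → ∀ q, z q (y.1 q) y.2 := fun v => by
    rw [funext_iff]
    refine forall_congr' fun y => ?_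
    rw [mulVec_diagonal]
    by_cases h : ∀ q, z q (y.1 q) y.2
    · simp [h]
    · rw [if_pos h, zero_mul]
      exact ⟨fun a b => absurd a.symm b, fun a => (by_contra fun b => h (a b) : v y = 0).symm⟩
  have b1 : (1 : Matrix _ _ ℂ) ∈ Big.Bd p V Ω 0 := fun y y' h => by
    obtain rfl : y = y' := by_contra fun e => h (one_apply_ne e)
    exact (Big.wt_le (S := ∅) fun _ _ => sub_self _).trans (Nat.zero_le _)
  obtain ⟨K, ⟨k3, k3'⟩, k1, k2, k4, k5⟩ := cheb _ V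
    (fun q => diagonal fun y : (V → ZMod p) × Ω => if z q (y.1 q) y.2 then (0 : ℂ) else 1)
    (diagonal fun y => if ¬ ∀ q, z q (y.1 q) y.2 then (0 : ℂ) else 1)
    (fun m => Big.Bd p V Ω m ⊓ (Big.Bd p V Ω m).comap (LinearMap.mulLeftRight ℂ (U, Uᴴ))) d
    (fun q => pj _) (fun i j => by
      rw [diagonal_mul_diagonal, diagonal_mul_diagonal]
      exact congrArg _ (funext fun y => mul_comm _ _)) (pj _)
    (fun v => by
      rw [ker]
      simp only [funext_iff, mulVec_diagonal, Pi.zero_apply]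
      rw [forall_comm (α := V)]
      refine forall_congr' fun y => ⟨fun a q => ?_, fun a b q => by_contra fun h => b ?_⟩
      · by_cases h : v y = 0
        · simp [h]
        · simp [a h q]
      · simpa [h] using a q)
    ⟨b1, by
      change U * 1 * Uᴴ ∈ Big.Bd p V Ω 0
      rwa [mul_one, u2]⟩
    (fun m A hA => ⟨fun y y' h => (hA.1 y y' h).trans m.le_succ,
      fun y y' h => (hA.2 y y' h).trans m.le_succ⟩)
    (fun m n A hA B hB => ⟨Big.bd_mul hA.1 hB.1, by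
      change U * (A * B) * Uᴴ ∈ Big.Bd p V Ω (m + n)
      have e : U * (A * B) * Uᴴ = U * A * Uᴴ * (U * B * Uᴴ) := by
        calc _ = U * A * (Uᴴ * U) * B * Uᴴ := by rw [u1]; simp only [mul_assoc, one_mul]
          _ = _ := by simp only [mul_assoc]
      rw [e]
      exact Big.bd_mul hA.2 hB.2⟩)
    (fun q => by
      have h := bl_bd (S := {q}) (A := diagonal fun y : (V → ZMod p) × Ω =>
        if z q (y.1 q) y.2 then (0 : ℂ) else 1) ⟨fun y y' h v _ => by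
          rw [show y = y' from by_contra fun e => h (diagonal_apply_ne _ e)], fun u hu y y' => by
          simp [diagonal_apply, Prod.ext_iff, hu q (mem_singleton_self q)]⟩
      rw [card_singleton, ← hU] at h
      exact h)
    h0 hd
  refine ⟨K, k3, hU ▸ k3', k1, k2, fun v hv => k4 v ((ker v).2 hv), fun u => ?_⟩
  refine le_trans (le_of_eq ?_) (k5 u)
  rw [nsq, nsq, sum_filter, ← sum_sub_distrib]
  refine sum_congr rfl fun y _ => ?_
  rw [Pi.sub_apply, mulVec_diagonal]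
  by_cases h : ∀ q, z q (y.1 q) y.2
  · rw [if_pos h, if_neg (not_not.2 h)]
    simp
  · rw [if_neg h, if_pos h]
    simp

/-- No line is almost preserved by the two label unitaries. -/
theorem fin {C : Code p V J} {k : ℕ} {γ : ℝ} (hC : C.Good k γ) {v : (V → ZMod p) × Ω → ℂ}
    (hv : nsq v = 1) {U : Matrix ((V → ZMod p) × Ω) ((V → ZMod p) × Ω) ℂ}
    (hU : U = four p V ⊗ₖ (1 : Matrix Ω Ω ℂ))
    (hX : ∀ s, 1 - ‖star v ⬝ᵥ ((Uᴴ * Big.dg Ω C true ^ s * U) *ᵥ v)‖ ^ 2 ≤ 1 / 12)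
    (hZ : ∀ t, 1 - ‖star v ⬝ᵥ (Big.dg Ω C false ^ t *ᵥ v)‖ ^ 2 ≤ 1 / 12) : False := by
  obtain ⟨Pr, pr, tr, ap, ds⟩ := line hv
  have uu : U ∈ unitaryGroup _ ℂ := hU ▸ uni
  have u1 : Uᴴ * U = 1 := mem_unitaryGroup_iff'.1 uu
  have us : Uᴴ ∈ unitaryGroup _ ℂ := Unitary.star_mem uu
  have xu : Uᴴ * Big.dg Ω C true * U ∈ unitaryGroup _ ℂ :=
    mul_mem (mul_mem us (Big.dg_uni C true)) uu
  have kr : ∀ A, ((four p V)ᴴ * A * four p V) ⊗ₖ (1 : Matrix Ω Ω ℂ) =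
      Uᴴ * (A ⊗ₖ (1 : Matrix Ω Ω ℂ)) * U := fun A => by
    rw [hU, conjTranspose_kronecker, ← mul_kronecker_mul, ← mul_kronecker_mul, conjTranspose_one,
      mul_one, mul_one]
  have sc : ∀ G ∈ unitaryGroup ((V → ZMod p) × Ω) ℂ, 1 - ‖star v ⬝ᵥ (G *ᵥ v)‖ ^ 2 ≤ 1 / 12 →
      ∀ w, Pr *ᵥ w = w → nsq (G *ᵥ w - Pr *ᵥ (G *ᵥ w)) ≤ nsq w / 12 := fun G hG h w hw => by
    rw [← hw, ap w, mulVec_smul, mulVec_smul, ← smul_sub, nsq_smul, nsq_smul, ds,
      nsq_unitary hG, hv]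
    nlinarith [sq_nonneg ‖star v ⬝ᵥ w‖]
  obtain ⟨m, hm⟩ := heis _ p (ZMod.stdAddChar (1 : ZMod p)) Pr (Uᴴ * Big.dg Ω C true * U)
    (Big.dg Ω C false) (Fact.out : p.Prime).pos ⟨Big.e_pow 1, fun n hn => by
      rw [← AddChar.map_nsmul_eq_pow, nsmul_one] at hn
      exact (ZMod.natCast_eq_zero_iff _ _).1 (Four.e_one hn)⟩ pr xu (Big.dg_uni C false)
    (by rw [Big.conj_pow uu, Big.dg_pow, mul_one, u1]) (Big.dg_pow C false) (by
      ext y y'
      rw [Matrix.smul_apply, Big.dg, diagonal_mul, mul_diagonal, Big.dg,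
        ← Big.diag_kron fun ξ => ZMod.stdAddChar (C.l true ξ), ← kr, kroneckerMap_apply]
      by_cases h : ((four p V)ᴴ * diagonal (fun ξ => ZMod.stdAddChar (C.l true ξ)) * four p V)
        y.1 y'.1 = 0
      · simp [h]
      · rw [Big.comm hC h, AddChar.map_add_eq_mul, smul_eq_mul]
        ring) fun s t w hw => by
      obtain ⟨a, ha⟩ : ∃ a, a = Big.dg Ω C false ^ t *ᵥ w := ⟨_, rfl⟩
      obtain ⟨X, hX'⟩ : ∃ X, X = (Uᴴ * Big.dg Ω C true * U) ^ s := ⟨_, rfl⟩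
      have hb : Pr *ᵥ (Pr *ᵥ a) = Pr *ᵥ a := by rw [mulVec_mulVec, pr.2]
      have s1 := sc _ (pow_mem (Big.dg_uni C false) t) (hZ t) w hw
      have s2 := sc _ (pow_mem xu s) (by rw [Big.conj_pow uu]; exact hX s) _ hb
      have e1 := pr.nsq_split a
      have e2 := pr.nsq_split (X *ᵥ (a - Pr *ᵥ a))
      have e3 : nsq a = nsq w := ha ▸ nsq_unitary (pow_mem (Big.dg_uni C false) t) w
      have e4 : nsq (X *ᵥ (a - Pr *ᵥ a)) = nsq (a - Pr *ᵥ a) := hX' ▸ nsq_unitary (pow_mem xu s) _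
      have e5 := nsq_add_le (X *ᵥ (a - Pr *ᵥ a) - Pr *ᵥ (X *ᵥ (a - Pr *ᵥ a)))
        (X *ᵥ (Pr *ᵥ a) - Pr *ᵥ (X *ᵥ (Pr *ᵥ a)))
      have e6 : X *ᵥ (a - Pr *ᵥ a) - Pr *ᵥ (X *ᵥ (a - Pr *ᵥ a)) +
          (X *ᵥ (Pr *ᵥ a) - Pr *ᵥ (X *ᵥ (Pr *ᵥ a))) = X *ᵥ a - Pr *ᵥ (X *ᵥ a) := by
        rw [mulVec_sub, mulVec_sub]
        abel
      rw [← mulVec_mulVec, ← ha, ← hX', ← e6]
      rw [← ha] at s1
      rw [← hX'] at s2
      linarith [nsq_nonneg (a - Pr *ᵥ a), nsq_nonneg (Pr *ᵥ (X *ᵥ (a - Pr *ᵥ a)))]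
  rw [tr] at hm
  exact (Fact.out : p.Prime).ne_one (Nat.eq_one_of_mul_eq_one_right (by exact_mod_cast hm.symm))

end Big2

open Big2 in
theorem big2 (h1 : OddStmt) (h2 : KillStmt) : Big2Stmt := by
  intro p _ k γ γ0
  classical
  have pk : (1 : ℝ) ≤ (p : ℝ) ^ k := one_le_pow₀ (by exact_mod_cast (Fact.out : p.Prime).one_le)
  obtain ⟨β, δ, n₀, β0, βγ, δ0, hn⟩ := consts _ pk k γ γ0
  refine ⟨δ, β / 3000, n₀, δ0, by positivity, ?_⟩
  intro V J Ω P _ _ _ _ _ _ C val z O sup c v hV hC hE hF hz hv hs hc c1 c2 c3 c4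
  obtain ⟨n0, ⟨d, d1, d2⟩, b, r, b1, b2, r1, hη⟩ := hn _ hV
  have n0' : (0 : ℝ) < Fintype.card V := Nat.cast_pos.2 n0
  have k0 : 0 < k := by
    obtain ⟨q⟩ := Fintype.card_pos_iff.1 n0
    obtain ⟨j, hj⟩ := hE.cover q
    exact (card_pos.2 ⟨q, hj⟩).trans_le (hC.card_S true j)
  obtain ⟨η, hη'⟩ : ∃ η, η = 1 / (200 * Real.exp (δ * Fintype.card V)) := ⟨_, rfl⟩
  have η0 : 0 ≤ η := by rw [hη']; positivity
  have η1 : (∑ a, ‖c a‖) * (2 * η) ≤ 1 / 100 := by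
    refine (mul_le_mul_of_nonneg_right hc (by positivity)).trans (le_of_eq ?_)
    rw [hη']
    field_simp
    norm_num
  have kill : ∀ w, Low C val b w → nsq w ≤ 1 → ∀ a, γ * Fintype.card V < (sup a).card →
      ‖star w ⬝ᵥ (O a *ᵥ w)‖ ≤ η := fun w hw w1 a ha => by
    have e := h2 p V J Ω P C k γ val O sup k0 hC hE hF a b r
      (Nat.cast_le.1 (r1.trans ha.le)) w w hw hw
    refine (abs_le_of_sq_le_sq' (e.trans ?_) η0).2
    rw [hη']
    refine le_trans (mul_le_of_le_one_right ?_ (mul_le_one₀ w1 (nsq_nonneg w) w1)) hη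
    have : 1 / (2 * (p : ℝ) ^ k) ≤ 1 := by
      rw [div_le_one (by linarith)]
      linarith
    exact mul_nonneg (by positivity) (pow_nonneg (by linarith) _)
  obtain ⟨K, k3, k3', k1, k2, k4, k5⟩ := sites (p := p) z n0 d1
  obtain ⟨U, hU⟩ : ∃ U, U = four p V ⊗ₖ (1 : Matrix Ω Ω ℂ) := ⟨_, rfl⟩
  have uu : U ∈ unitaryGroup _ ℂ := hU ▸ uni
  have u1 : Uᴴ * U = 1 := mem_unitaryGroup_iff'.1 uu
  have u2 : U * Uᴴ = 1 := mem_unitaryGroup_iff.1 uu
  have us : Uᴴ ∈ unitaryGroup _ ℂ := Unitary.star_mem uu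
  have kr : ∀ A, ((four p V)ᴴ * A * four p V) ⊗ₖ (1 : Matrix Ω Ω ℂ) =
      Uᴴ * (A ⊗ₖ (1 : Matrix Ω Ω ℂ)) * U := fun A => by
    rw [hU, conjTranspose_kronecker, ← mul_kronecker_mul, ← mul_kronecker_mul, conjTranspose_one,
      mul_one, mul_one]
  by_contra he
  simp only [Fintype.sum_bool, Code.hm, kr, qf_conj, Big.energy, not_le] at he
  have m0 : ∀ s (w : (V → ZMod p) × Ω → ℂ), 0 ≤ ∑ y, (viol (C.K s) y.1 : ℝ) * ‖w y‖ ^ 2 :=
    fun s w => sum_nonneg fun _ _ => by positivity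
  have K1 := k1.add c1
  have K2 : ∀ u, qf (K + ∑ a, c a • O a) u ≤ 6 * nsq u := fun u => by
    rw [qf_add]
    linarith [k2 u, c2 u]
  have K4 : (K + ∑ a, c a • O a) *ᵥ v = 0 := by rw [add_mulVec, k4 v hs, c3, add_zero]
  have K5 : ∀ G ∈ unitaryGroup ((V → ZMod p) × Ω) ℂ, qf (K + ∑ a, c a • O a) (G *ᵥ v) ≤ 1 / 12 →
      1 - ‖star v ⬝ᵥ (G *ᵥ v)‖ ^ 2 ≤ 1 / 12 := fun G hG h => by
    rw [qf_add] at h
    have e := nsq_unitary hG v
    linarith [k5 (G *ᵥ v), c4 (G *ᵥ v)]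
  obtain ⟨g, hg⟩ : ∃ g : (V → ZMod p) × Ω → ℂ,
      g = fun y => (if nbad C val y ≤ b then 1 else 0) * (U *ᵥ v) y := ⟨_, rfl⟩
  have g1 : ∀ y, g y ≠ 0 → nbad C val y ≤ b := fun y h => by_contra fun e => h (by simp [hg, e])
  have g2 : nsq g ≤ 1 := by
    rw [hg, ← hv, ← nsq_unitary uu v]
    exact nsq_cut (fun y => nbad C val y ≤ b) (U *ᵥ v)
  have g3 : ∀ w : (V → ZMod p) × Ω → ℂ, (∀ y, w y ≠ 0 → g y ≠ 0) → Low C val b (Uᴴ *ᵥ w) :=
    fun w h y hy => by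
      rw [← hU, mulVec_mulVec, u2, one_mulVec] at hy
      exact g1 y (h y hy)
  have g4 : nsq (v - Uᴴ *ᵥ g) ≤ 1 / 1500 := by
    have e1 := markov (fun y => (nbad C val y : ℝ)) (fun _ => by positivity)
      (fun y => nbad C val y ≤ b) (β * Fintype.card V)
      (fun y h => b2.trans (by exact_mod_cast not_le.1 h)) (U *ᵥ v)
    have e2 := mass hE val z hz hs
    rw [← hU] at e2
    have e3 : nsq (v - Uᴴ *ᵥ g) = nsq (U *ᵥ v - g) := by
      rw [← nsq_unitary uu, mulVec_sub, mulVec_mulVec, u2, one_mulVec]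
    have e4 : β * Fintype.card V * nsq (U *ᵥ v - g) ≤ β * Fintype.card V * (1 / 1500) := by
      have e5 : β * Fintype.card V * nsq (U *ᵥ v - g) ≤
          ∑ y, (nbad C val y : ℝ) * ‖(U *ᵥ v) y‖ ^ 2 := by
        rw [hg]
        exact e1
      linarith [m0 false v]
    rw [e3]
    exact le_of_mul_le_mul_left e4 (by positivity)
  refine fin hC hv hU (fun s => K5 _
    (mul_mem (mul_mem us (pow_mem (Big.dg_uni C true) s)) uu) ?_) fun t => K5 _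
    (pow_mem (Big.dg_uni C false) t) ?_
  · refine one_side K1 K2 (mul_mem (mul_mem us (pow_mem (Big.dg_uni C true) s)) uu) K4
      (u := Uᴴ *ᵥ g) (by linarith) ?_
    rw [mulVec_mulVec, mul_assoc _ U, u2, mul_one, ← mulVec_mulVec]
    refine side hC true U K O sup c (hU ▸ k3') d2 (fun a => hU ▸ (bl_bd (hF.bl a)).2)
      (fun y h => le_trans (Nat.cast_le.2 (le_trans ?_ (g1 y h))) b1) s η0 η1
      (kill _ (g3 _ fun _ h => h) (by rwa [nsq_unitary us]))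
      (kill _ (g3 _ fun y h => by
        rw [dg_vec] at h
        exact right_ne_zero_of_mul h)
        (by rwa [nsq_unitary us, nsq_unitary (pow_mem (Big.dg_uni C true) s)]))
    exact card_le_card fun j hj => mem_filter.2 ⟨mem_univ _, fun e => (mem_filter.1 hj).2 e.1⟩
  · obtain ⟨χ, hχ⟩ : ∃ χ : (V → ZMod p) → ℂ,
        ∀ x, χ x = if (viol (C.K false) x : ℝ) ≤ γ * Fintype.card V then 1 else 0 :=
      ⟨_, fun _ => rfl⟩
    have pp : ∀ j, ∀ l ∈ perp (C.K true j), ∀ i, l ∈ C.K false i := fun j l hl =>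
      hC.perp l fun w hw => hl w (hw j)
    have i1 : ∀ j, ∀ l ∈ perp (C.K true j), ∀ x, χ (x + l) = χ x := fun j l hl x => by
      have e : viol (C.K false) (x + l) = viol (C.K false) x := by
        unfold viol
        congr 1
        ext i
        simp only [mem_filter, (C.K false i).add_mem_iff_left (pp j l hl i)]
      rw [hχ, hχ, e]
    have i2 : ∀ j, ∀ l ∈ perp (C.K true j), ∀ x, ZMod.stdAddChar (C.l false (x + l)) ^ t =
        ZMod.stdAddChar (C.l false x) ^ t := fun j l hl x => by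
      rw [hC.l_add false x l (pp j l hl), Bool.not_false, hl _ (hC.w_mem true j), add_zero]
    have l1 := low_mul h1 C val b χ i1 (g3 g fun _ h => h)
    have l2 := low_mul h1 C val b (fun x => ZMod.stdAddChar (C.l false x) ^ t) i2 l1
    have n1 : ∀ w : (V → ZMod p) × Ω → ℂ, nsq (fun y => χ y.1 * w y) ≤ nsq w := fun w => by
      simp only [hχ]
      exact nsq_cut
        (fun y : (V → ZMod p) × Ω => (viol (C.K false) y.1 : ℝ) ≤ γ * Fintype.card V) w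
    have n2 : nsq (v - fun y => χ y.1 * v y) ≤ 1 / 3000 := by
      have e1 := markov (fun y : (V → ZMod p) × Ω => (viol (C.K false) y.1 : ℝ))
        (fun _ => by positivity) (fun y => (viol (C.K false) y.1 : ℝ) ≤ γ * Fintype.card V)
        (β * Fintype.card V)
        (fun y h => (mul_le_mul_of_nonneg_right βγ n0'.le).trans (not_le.1 h).le) v
      have e4 : β * Fintype.card V * nsq (v - fun y => χ y.1 * v y) ≤
          β * Fintype.card V * (1 / 3000) := by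
        have e5 : β * Fintype.card V * nsq (v - fun y => χ y.1 * v y) ≤
            ∑ y, (viol (C.K false) y.1 : ℝ) * ‖v y‖ ^ 2 := by
          simp only [hχ]
          exact e1
        linarith [m0 true (U *ᵥ v)]
      exact le_of_mul_le_mul_left e4 (by positivity)
    have n3 : nsq (fun y => χ y.1 * (Uᴴ *ᵥ g) y) ≤ 1 := (n1 _).trans (by rwa [nsq_unitary us])
    refine one_side K1 K2 (pow_mem (Big.dg_uni C false) t) K4
      (u := fun y => χ y.1 * (Uᴴ *ᵥ g) y) ?_ ?_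
    · have e1 := nsq_add_le (v - fun y => χ y.1 * v y) fun y => χ y.1 * (v - Uᴴ *ᵥ g) y
      have e2 : (v - fun y => χ y.1 * v y) + (fun y => χ y.1 * (v - Uᴴ *ᵥ g) y) =
          v - fun y => χ y.1 * (Uᴴ *ᵥ g) y := by
        funext y
        simp only [Pi.add_apply, Pi.sub_apply]
        ring
      rw [e2] at e1
      linarith [n1 (v - Uᴴ *ᵥ g)]
    · have e := side hC false 1 K O sup c (by simpa using k3) d2
        (fun a => by simpa using (bl_bd (hF.bl a)).1) (g := fun y => χ y.1 * (Uᴴ *ᵥ g) y)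
        (fun y h => by_contra fun e => h (by simp [hχ, e])) t η0 η1
        (by simpa only [conjTranspose_one, one_mulVec] using kill _ l1 n3)
        (by
          simp only [conjTranspose_one, one_mulVec]
          exact kill _ (by rwa [dg_vec])
            (by rwa [nsq_unitary (pow_mem (Big.dg_uni C false) t)]))
      simpa only [conjTranspose_one, one_mulVec] using e

end Pool.Agent.MP_36f78e_lc.H24N
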