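import Pool.Agent.MP_36f78e_lc.H24N.Spec
import Pool.Agent.MP_36f78e_lc.H46.Code

/-! The quantum Tanner code has the two extra properties. -/

set_option linter.unusedSectionVars false

namespace Pool.Agent.MP_36f78e_lc.H24N

open Matrix Finset Module H46

namespace Code2

theorem big_w {G A : Type} [Fintype G] [DecidableEq G] [Fintype A] {w : ℕ} (hw : 1 ≤ w)
    (hA : Fintype.card A = 128 * w) (hG : 2 ^ 18 ≤ Fintype.card G) {σ : A → Equiv.Perm G}
    (h : Mix σ ((w : ℝ) / 1024)) : 512 < w := by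
  obtain ⟨g⟩ : Nonempty G := Fintype.card_pos_iff.1 (by omega)
  obtain ⟨a⟩ : Nonempty A := Fintype.card_pos_iff.1 (by omega)
  have h1 := h (fun x => if x = g then 1 else 0) (fun x => if x = σ a g then 1 else 0)
  have h2 : (1 : ℝ) ≤ ∑ x, ∑ b, (if x = g then (1 : ℝ) else 0) *
      (if σ b x = σ a g then 1 else 0) := by
    refine le_trans ?_ (single_le_sum (f := fun x => ∑ b, (if x = g then (1 : ℝ) else 0) *
      (if σ b x = σ a g then 1 else 0)) (fun x _ => sum_nonneg fun b _ => by positivity)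
      (mem_univ g))
    refine le_trans ?_ (single_le_sum (f := fun b => (if g = g then (1 : ℝ) else 0) *
      (if σ b g = σ a g then 1 else 0)) (fun b _ => by positivity) (mem_univ a))
    simp
  have h3 := h2.trans h1
  simp only [sum_ite_eq', mem_univ, if_true, ite_pow, one_pow, ne_eq, OfNat.ofNat_ne_zero,
    not_false_eq_true, zero_pow, mul_one, hA] at h3
  have hG' : (2 : ℝ) ^ 18 ≤ Fintype.card G := by exact_mod_cast hG
  have h4 : ((128 * w : ℕ) : ℝ) / Fintype.card G ≤ (w : ℝ) / 2048 := by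
    rw [div_le_div_iff₀ (by linarith) (by norm_num)]
    push_cast
    nlinarith [(Nat.cast_nonneg w : (0 : ℝ) ≤ w)]
  have h5 : (512 : ℝ) < w := by linarith
  exact_mod_cast h5

variable {F G A κ κ' : Type} [Field F] [Fintype G] [DecidableEq G] [Fintype A]
  [DecidableEq A] [Fintype κ] [Fintype κ']

theorem dist_chk {w : ℕ} (hw : 512 < w) {H : Matrix κ A F} {H' : Matrix κ' A F} (h : PE w H H')
    (π : A → A → Equiv.Perm G) (v : G) : Dist (chk π H H' v) (CodeRow.sq π v) := by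
  classical
  intro u hu q q' h0 z hz
  obtain ⟨c, r, e, -, -, hb⟩ := h (view π u v) hu
  have h1 : wt (fun s : A × A => view π u v s.1 s.2) ≤ 2 := by
    refine le_trans (card_le_card (t := {q.2, q'.2}) fun s hs => ?_) card_le_two
    have h2 := (mem_filter.1 hs).2
    by_contra h3
    simp only [mem_insert, mem_singleton, not_or] at h3
    exact h2 (h0 ((π s.1 s.2).symm v, s.1, s.2) (by simp [CodeRow.sq])
      (fun e => h3.1 (congrArg Prod.snd e)) fun e => h3.2 (congrArg Prod.snd e))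
  have h4 : wt (fun b => cᵀ b) + wt (fun a => r a) = 0 := by
    by_contra h5
    have : w * 1 ≤ w * (wt (fun b => cᵀ b) + wt (fun a => r a)) :=
      Nat.mul_le_mul_left _ (by omega)
    omega
  have h5 : ∀ {Y β : Type} [Fintype Y] [Zero β] (x : Y → β), wt x = 0 → ∀ y, x y = 0 :=
    fun x hx y => by
      by_contra h6
      have := card_eq_zero.1 hx
      exact (this ▸ notMem_empty y) (mem_filter.2 ⟨mem_univ y, h6⟩)
  have h6 : view π u v z.2.1 z.2.2 = 0 := by
    rw [e, Matrix.add_apply, congrFun (h5 (fun a => r a) (by omega) z.2.1) z.2.2]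
    have := congrFun (h5 (fun b => cᵀ b) (by omega) z.2.2) z.2.1
    rw [transpose_apply] at this
    rw [this]
    simp
  have h7 : (π z.2.1 z.2.2).symm v = z.1 := by
    rw [← (mem_filter.1 hz).2, Equiv.symm_apply_apply]
  simpa [view, h7] using h6

end Code2

open CodeRow Code2 in
theorem code2 (h1 : ExpStmt) (h2 : PEStmt) (h3 : TanStmt) (h4 : LabStmt) : Code2Stmt := by
  obtain ⟨w, hw, hE⟩ := h1
  obtain ⟨p, hp, hp2, P, P', Q, Q', hP, hQ, pe1, pe2⟩ := h2 w hw
  have hw0 : (0 : ℝ) < w := by exact_mod_cast hw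
  refine ⟨p, hp, 128 * w * (128 * w), 1 / (2 ^ 85 * (w : ℝ) ^ 4), hp2, by positivity, fun n₀ => ?_⟩
  obtain ⟨G, _, _, hG, σ, τ, hc, m1, m2⟩ := hE (n₀ + 2 ^ 18)
  have hA : Fintype.card (AA w) = 128 * w := by
    simp only [Fintype.card_sum, Fintype.card_fin]
    omega
  have hw2 : 512 < w := big_w hw hA (by omega) m1
  have hk : 2 ≤ 128 * w * (128 * w) := by nlinarith
  have hV : Fintype.card (G × AA w × AA w) = Fintype.card G * (128 * w * (128 * w)) := by
    rw [Fintype.card_prod, Fintype.card_prod, hA]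
  let π₀₀ : AA w → AA w → Equiv.Perm G := fun _ _ => 1
  let π₁₀ : AA w → AA w → Equiv.Perm G := fun a _ => σ a
  let π₀₁ : AA w → AA w → Equiv.Perm G := fun _ b => τ b
  let π₁₁ : AA w → AA w → Equiv.Perm G := fun a b => σ a * τ b
  have e1 : ∀ a b, π₁₀ a b = σ a * π₀₀ a b := fun a b => (mul_one _).symm
  have e2 : ∀ a b, π₀₁ a b = τ b * π₀₀ a b := fun a b => (mul_one _).symm
  have e3 : ∀ a b, π₁₁ a b = σ a * π₀₁ a b := fun a b => rfl
  have e4 : ∀ a b, π₁₁ a b = τ b * π₁₀ a b := fun a b => hc a b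
  have f2 : ∀ a b, π₀₀ a b = (τ b)⁻¹ * π₀₁ a b := fun a b => (inv_mul_cancel _).symm
  have f4 : ∀ a b, π₁₀ a b = (τ b)⁻¹ * π₁₁ a b := fun a b => by rw [e4, inv_mul_cancel_left]
  have hP' := swap_one hP
  have hQ' := swap_one hQ
  have d1 := fun π : AA w → AA w → Equiv.Perm G =>
    finrank_gen π (H := P.toRows₁) (H' := Q.toRows₂) P.toRows₂ Q.toRows₁ (inj_rows hP)
      fun y a b => inj_rows hQ y b a
  have d2 := fun π : AA w → AA w → Equiv.Perm G =>
    finrank_gen π (H := P'.toRows₂) (H' := Q'.toRows₁) P'.toRows₁ Q'.toRows₂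
      (fun y a b => inj_rows hP' y b a) (inj_rows hQ')
  simp only [Fintype.card_fin] at d1 d2
  obtain ⟨w₀, w₁, hw₀, hw₁, hdot⟩ := exists_pair
    (gen π₀₀ P.toRows₁ Q.toRows₂ ⊔ gen π₁₁ P.toRows₁ Q.toRows₂)
    (gen π₀₁ P'.toRows₂ Q'.toRows₁ ⊔ gen π₁₀ P'.toRows₂ Q'.toRows₁) (by
      have s1 := Submodule.finrank_add_le_finrank_add_finrank
        (gen π₀₀ P.toRows₁ Q.toRows₂) (gen π₁₁ P.toRows₁ Q.toRows₂)
      have s2 := Submodule.finrank_add_le_finrank_add_finrank
        (gen π₀₁ P'.toRows₂ Q'.toRows₁) (gen π₁₀ P'.toRows₂ Q'.toRows₁)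
      have s3 := d1 π₀₀
      have s4 := d1 π₁₁
      have s5 := d2 π₀₁
      have s6 := d2 π₁₀
      have s7 : 0 < Fintype.card G * (w * w) := Nat.mul_pos (by omega) (Nat.mul_pos hw hw)
      rw [hV]
      have s8 : Fintype.card G * (128 * w * (128 * w)) = 16384 * (Fintype.card G * (w * w)) := by
        ring
      have s9 : Fintype.card G * (96 * w * (32 * w)) = 3072 * (Fintype.card G * (w * w)) := by
        ring
      have s10 : Fintype.card G * (32 * w * (96 * w)) = 3072 * (Fintype.card G * (w * w)) := by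
        ring
      omega)
  obtain ⟨l₀, a₀, n₀'⟩ := side h3 h4 hw hA e1 e2 e3 e4 m1 m2 pe1 w₁ hw₁
  obtain ⟨l₁, a₁, n₁'⟩ := side h3 h4 (τ := fun b => (τ b)⁻¹) hw hA e3 f2 e1 f4 m1 m2.inv pe2 w₀ hw₀
  have pZ : ∀ u : G × AA w × AA w → ZMod p,
      (∀ g ∈ gen π₀₁ P'.toRows₂ Q'.toRows₁ ⊔ gen π₁₀ P'.toRows₂ Q'.toRows₁, u ⬝ᵥ g = 0) →
      ∀ j, u ∈ Sum.elim (chk π₁₀ P.toRows₁ Q.toRows₂) (chk π₀₁ P.toRows₁ Q.toRows₂) j := by
    rintro u hu (v | v)
    · exact mem_chk_of_perp π₁₀ (dot21 hP') (dot12 hQ')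
        (fun g hg => hu g (Submodule.mem_sup_right hg)) v
    · exact mem_chk_of_perp π₀₁ (dot21 hP') (dot12 hQ')
        (fun g hg => hu g (Submodule.mem_sup_left hg)) v
  have pX : ∀ j, w₁ ∈ Sum.elim (chk π₁₁ P'.toRows₂ Q'.toRows₁) (chk π₀₀ P'.toRows₂ Q'.toRows₁) j := by
    rintro (v | v)
    · exact mem_chk_of_perp π₁₁ (dot12 hP) (dot21 hQ)
        (fun g hg => hw₁ g (Submodule.mem_sup_right hg)) v
    · exact mem_chk_of_perp π₀₀ (dot12 hP) (dot21 hQ)
        (fun g hg => hw₁ g (Submodule.mem_sup_left hg)) v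
  refine ⟨G × AA w × AA w, G ⊕ G, inferInstance, inferInstance, inferInstance, ?_, ?_,
    ⟨fun s => match s with
        | false => Sum.elim (chk π₁₀ P.toRows₁ Q.toRows₂) (chk π₀₁ P.toRows₁ Q.toRows₂)
        | true => Sum.elim (chk π₁₁ P'.toRows₂ Q'.toRows₁) (chk π₀₀ P'.toRows₂ Q'.toRows₁),
      fun s => match s with
        | false => Sum.elim (CodeRow.sq π₁₀) (CodeRow.sq π₀₁)
        | true => Sum.elim (CodeRow.sq π₁₁) (CodeRow.sq π₀₀),
      fun s => match s with
        | false => w₀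
        | true => w₁,
      fun s => match s with
        | false => l₀
        | true => l₁⟩, ⟨?_, ?_, ?_, ?_, ?_, hdot, ?_, ?_⟩, ?_, ?_⟩
  · rw [hV]
    nlinarith
  · rw [hV, Fintype.card_sum]
    nlinarith
  · rintro (_ | _) (v | v) <;> exact (card_sq _ v).trans (by rw [hA])
  · rintro (_ | _) q <;> exact (deg_sq _ _ q).trans hk
  · rintro (_ | _) (v | v) u hu <;> exact loc_chk _ _ _ v u hu
  · intro u hu
    refine pZ u fun g hg => ?_
    rw [dotProduct_comm]
    exact hu g (sup_le_chk (τ := fun b => (τ b)⁻¹) e3 f2 e1 f4 _ _ g hg)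
  · rintro (_ | _)
    · exact pZ w₀ hw₀
    · exact pX
  · rintro (_ | _)
    · exact a₀
    · exact a₁
  · rintro (_ | _)
    · exact n₀'
    · exact n₁'
  · exact fun q => ⟨Sum.inr q.1, by simp [CodeRow.sq, π₀₀]⟩
  · rintro (v | v) <;> exact dist_chk hw2 pe2 _ v

end Pool.Agent.MP_36f78e_lc.H24N
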