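import Pool.Agent.MP_36f78e_lc.H24N.Spec

/-! The lifted Pauli operators form a damped family. -/

set_option linter.unusedSectionVars false

namespace Pool.Agent.MP_36f78e_lc.H24N

open Matrix Finset H46
open scoped ComplexOrder Kronecker

namespace EncX

variable {p m : ℕ} [Fact p.Prime] {V ι : Type} [Fintype V] [DecidableEq V] [Fintype ι]
  [DecidableEq ι] (E : Enc p V ι m)

theorem lift_mul (A B : Op ι) : lift E A * lift E B = lift E (A * B) := by
  rw [lift, lift, lift, submatrix_mul_equiv, ← mul_kronecker_mul, Matrix.one_mul]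

theorem lift_star (A : Op ι) : (lift E A)ᴴ = lift E Aᴴ := by
  rw [lift, lift, conjTranspose_submatrix, conjTranspose_kronecker, conjTranspose_one]

theorem lift_one : lift E (1 : Op ι) = 1 := by
  rw [lift, one_kronecker_one, submatrix_one_equiv]

theorem lift_uni (a : PL ι) :
    lift E (W a) ∈ unitaryGroup ((V → ZMod p) × (ι → ZMod 2)) ℂ := by
  rw [mem_unitaryGroup_iff', star_eq_conjTranspose, lift_star, lift_mul, W_star_mul, lift_one]

theorem mem_psup {a : PL ι} {q : V} :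
    q ∈ psup E a ↔ word E a.1 q ≠ 0 ∨ word E a.2 q ≠ 0 := by
  simp only [psup, mem_filter, mem_univ, true_and]

theorem lift_sl (a : PL ι) : E.SL (psup E a) (lift E (W a)) := by
  have h1 : InS (univ.filter fun i => a.1 i ≠ 0 ∨ a.2 i ≠ 0) a := fun i hi => by
    simpa using hi
  have h2 : E.sites (univ.filter fun i => a.1 i ≠ 0 ∨ a.2 i ≠ 0) = psup E a := by
    ext q
    simp only [mem_psup, Enc.sites, mem_filter, mem_univ, true_and, Function.ne_iff, word,
      Pi.zero_apply, exists_or]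
  have h3 := (Enc.sl_right (E := E) h1.loc).tau
  rw [h2] at h3
  exact h3

theorem lift_keep (a : PL ι) (y y' : (V → ZMod p) × (ι → ZMod 2)) (h : lift E (W a) y y' ≠ 0)
    (q : V) (hq : q ∉ psup E a) : valid E q y.2 ↔ valid E q y'.2 := by
  have h1 : word E y.2 q = word E y'.2 q := congrArg Prod.snd ((lift_sl E a).1 y y' h q hq)
  rw [valid, valid, h1]

theorem lift_split (a : PL ι) (S : Finset V) : ∃ a₁ a₂ : PL ι,
    lift E (W a) = lift E (W a₁) * lift E (W a₂) ∧ psup E a₁ = psup E a ∩ S ∧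
      psup E a₂ = psup E a \ S := by
  refine ⟨(fun i => if i ∈ E.blocks S then a.1 i else 0,
      fun i => if i ∈ E.blocks S then a.2 i else 0),
    (fun i => if i ∈ E.blocks S then 0 else a.1 i, fun i => if i ∈ E.blocks S then 0 else a.2 i),
    ?_, ?_, ?_⟩
  · rw [lift_mul, W_mul]
    have h1 : (fun i => if i ∈ E.blocks S then a.2 i else 0) ⬝ᵥ
        (fun i => if i ∈ E.blocks S then 0 else a.1 i) = 0 :=
      sum_eq_zero fun i _ => by by_cases h : i ∈ E.blocks S <;> simp [h]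
    rw [h1, sg_zero, one_smul]
    congr 2
    refine Prod.ext (funext fun i => ?_) (funext fun i => ?_) <;>
      by_cases h : i ∈ E.blocks S <;> simp [h]
  · ext q
    by_cases h : q ∈ S <;>
      simp [mem_psup, Function.ne_iff, word, Enc.mem_blocks, h]
  · ext q
    by_cases h : q ∈ S <;>
      simp [mem_psup, Function.ne_iff, word, Enc.mem_blocks, h]

/-- The permutation of configurations induced by a bit flip. -/
noncomputable def mv (b : ι → ZMod 2) (y : (V → ZMod p) × (ι → ZMod 2)) :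
    (V → ZMod p) × (ι → ZMod 2) := E.sw ((E.sw y).1, (E.sw y).2 + b)

theorem mv_mv (b : ι → ZMod 2) (y : (V → ZMod p) × (ι → ZMod 2)) : mv E b (mv E b y) = y := by
  rw [mv, mv, E.sw_sw, add_assoc, vec_add_self, add_zero]
  exact E.sw_sw y

theorem nsq_mv (b : ι → ZMod 2) (u : (V → ZMod p) × (ι → ZMod 2) → ℂ) :
    ∑ y, ‖u (mv E b y)‖ ^ 2 = nsq u :=
  Equiv.sum_comp (Function.Involutive.toPerm (mv E b) (mv_mv E b)) fun y => ‖u y‖ ^ 2

theorem lift_mulVec (a : PL ι) (u : (V → ZMod p) × (ι → ZMod 2) → ℂ)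
    (y : (V → ZMod p) × (ι → ZMod 2)) :
    (lift E (W a) *ᵥ u) y = sg (a.2 ⬝ᵥ ((E.sw y).2 + a.1)) * u (mv E a.1 y) := by
  rw [lift, submatrix_mulVec_equiv, Function.comp_apply, ← diagonal_one, Enc.tau_apply]
  have h1 := dk_mulVec (fun _ : V → ZMod p => (1 : ℂ)) (W a) (u ∘ E.tau.symm) (E.sw y).1 (E.sw y).2
  rw [W_mulVec, one_mul] at h1
  exact h1

theorem inner_eq (a : PL ι) (u u' : (V → ZMod p) × (ι → ZMod 2) → ℂ) :
    star u' ⬝ᵥ (lift E (W a) *ᵥ u) =
      ∑ y, star (u' y) * (sg (a.2 ⬝ᵥ ((E.sw y).2 + a.1)) * u (mv E a.1 y)) :=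
  sum_congr rfl fun y _ => by rw [lift_mulVec]; rfl

/-- A nonzero shift moves some code word out of the code. -/
theorem exists_invalid (hp : 2 < p) {s : Fin m → ZMod 2} (hs : s ≠ 0) :
    ∃ z, E.enc (E.dec (E.enc z + s)) ≠ E.enc z + s := by
  by_contra h
  have h' : ∀ z, E.enc (E.dec (E.enc z + s)) = E.enc z + s := fun z => by
    by_contra h''
    exact h ⟨z, h''⟩
  have hi : Function.Involutive fun z => E.dec (E.enc z + s) := fun z => by
    show E.dec (E.enc (E.dec (E.enc z + s)) + s) = z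
    rw [h', add_assoc, vec_add_self, add_zero, E.dec_enc]
  have h2 : ¬ 2 ∣ Fintype.card (ZMod p) := by
    rw [ZMod.card]
    intro h3
    have := (Nat.prime_dvd_prime_iff_eq Nat.prime_two (Fact.out : p.Prime)).1 h3
    omega
  have : Fact (Nat.Prime 2) := ⟨Nat.prime_two⟩
  obtain ⟨z, hz⟩ := Equiv.Perm.exists_fixed_point_of_prime (p := 2) (n := 1) h2
    (σ := hi.toPerm _) (by
      ext z
      rw [pow_one, pow_two]
      exact hi z)
  have h4 : E.dec (E.enc z + s) = z := hz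
  have h5 := h' z
  rw [h4] at h5
  exact hs (by simpa using h5)

theorem site_valid {y : (V → ZMod p) × (ι → ZMod 2)} {q : V} (h : valid E q y.2) :
    E.site (E.sw y) q = (E.dec (word E y.2 q), E.enc (y.1 q)) := by
  rw [E.site_sw]
  exact if_pos h

theorem word_mv {y : (V → ZMod p) × (ι → ZMod 2)} {q : V} (h : valid E q y.2) (b : ι → ZMod 2)
    (hb : E.enc (E.dec (E.enc (y.1 q) + word E b q)) ≠ E.enc (y.1 q) + word E b q) :
    ¬ valid E q (mv E b y).2 := by
  have h1 : E.site ((E.sw y).1, (E.sw y).2 + b) q =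
      (E.dec (word E y.2 q), E.enc (y.1 q) + word E b q) := by
    have h2 := site_valid E h
    have h6 : (E.site (E.sw y) q).1 = E.dec (word E y.2 q) := congrArg Prod.fst h2
    refine Prod.ext h6 ?_
    have h3 : (E.site (E.sw y) q).2 = E.enc (y.1 q) := congrArg Prod.snd h2
    show (E.site (E.sw y) q).2 + word E b q = _
    rw [h3]
  have h4 : E.site (mv E b y) q = (E.dec (word E y.2 q), E.enc (y.1 q) + word E b q) := by
    rw [mv, E.site_sw, h1]
    exact if_neg hb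
  have h5 : word E (mv E b y).2 q = E.enc (y.1 q) + word E b q := congrArg Prod.snd h4
  rw [valid, h5]
  exact hb

/-- An invariant vector has the same mass on all values of a coordinate. -/
theorem mass {Ω : Type} [Fintype Ω] {u : (V → ZMod p) × Ω → ℂ} {q : V}
    (h : ∀ c, ∃ l : V → ZMod p, l q = c ∧ ∀ y : (V → ZMod p) × Ω, u (y.1 + l, y.2) = u y)
    (z : ZMod p) :
    ∑ y ∈ univ.filter (fun y : (V → ZMod p) × Ω => y.1 q ≠ z), ‖u y‖ ^ 2 =
      (1 - 1 / (p : ℝ)) * nsq u := by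
  have h1 : ∀ z', ∑ y ∈ univ.filter (fun y : (V → ZMod p) × Ω => y.1 q = z'), ‖u y‖ ^ 2 =
      ∑ y ∈ univ.filter (fun y : (V → ZMod p) × Ω => y.1 q = z), ‖u y‖ ^ 2 := fun z' => by
    obtain ⟨l, hl, hu⟩ := h (z - z')
    refine sum_equiv ((Equiv.addRight l).prodCongr (Equiv.refl Ω)) (fun y => ?_) fun y _ => ?_
    · simp only [mem_filter, mem_univ, true_and, Equiv.prodCongr_apply, Prod.map_fst,
        Equiv.coe_addRight, Pi.add_apply, hl]
      constructor
      · rintro rfl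
        ring
      · intro h2
        linear_combination h2
    · rw [← hu y]
      rfl
  have h2 := sum_fiberwise (univ : Finset ((V → ZMod p) × Ω)) (fun y => y.1 q)
    fun y => ‖u y‖ ^ 2
  rw [sum_congr rfl fun z' _ => h1 z', sum_const, card_univ, ZMod.card, nsmul_eq_mul] at h2
  have h3 := sum_filter_add_sum_filter_not (univ : Finset ((V → ZMod p) × Ω))
    (fun y => y.1 q = z) fun y => ‖u y‖ ^ 2
  have hp : (0 : ℝ) < p := by exact_mod_cast (Fact.out : p.Prime).pos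
  rw [nsq, ← h2]
  rw [← h2] at h3
  field_simp
  linarith

theorem damp_flip (hp : 2 < p) (a : PL ι) {q : V} (hq : word E a.1 q ≠ 0)
    {u u' : (V → ZMod p) × (ι → ZMod 2) → ℂ} (hu : ∀ y, u y ≠ 0 → valid E q y.2)
    (hu' : ∀ y, u' y ≠ 0 → valid E q y.2)
    (h : ∀ c, ∃ l : V → ZMod p, l q = c ∧
      ∀ y : (V → ZMod p) × (ι → ZMod 2), u' (y.1 + l, y.2) = u' y) :
    ‖star u' ⬝ᵥ (lift E (W a) *ᵥ u)‖ ^ 2 ≤ (1 - 1 / (p : ℝ)) * (nsq u * nsq u') := by
  obtain ⟨z, hz⟩ := exists_invalid E hp hq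
  have h1 : ‖star u' ⬝ᵥ (lift E (W a) *ᵥ u)‖ ≤
      ∑ y ∈ univ.filter (fun y : (V → ZMod p) × (ι → ZMod 2) => y.1 q ≠ z),
        ‖u' y‖ * ‖u (mv E a.1 y)‖ := by
    rw [inner_eq, sum_filter]
    refine (norm_sum_le _ _).trans (sum_le_sum fun y _ => ?_)
    rw [norm_mul, norm_mul, norm_sg, one_mul, norm_star]
    split_ifs with hy
    · exact le_rfl
    · have hy' : y.1 q = z := not_not.1 hy
      by_cases h2 : u' y = 0
      · simp [h2]
      · have h3 : u (mv E a.1 y) = 0 := by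
          by_contra h4
          exact word_mv E (hu' y h2) a.1 (by rw [hy']; exact hz) (hu _ h4)
        simp [h3]
  have h2 := sum_mul_sq_le_sq_mul_sq
    (univ.filter fun y : (V → ZMod p) × (ι → ZMod 2) => y.1 q ≠ z) (fun y => ‖u' y‖)
    fun y => ‖u (mv E a.1 y)‖
  have h3 : ∑ y ∈ univ.filter (fun y : (V → ZMod p) × (ι → ZMod 2) => y.1 q ≠ z),
      ‖u (mv E a.1 y)‖ ^ 2 ≤ nsq u := by
    rw [← nsq_mv E a.1 u]
    exact sum_le_sum_of_subset_of_nonneg (filter_subset _ _) fun _ _ _ => sq_nonneg _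
  have h4 : 0 ≤ ∑ y ∈ univ.filter (fun y : (V → ZMod p) × (ι → ZMod 2) => y.1 q ≠ z),
      ‖u' y‖ ^ 2 := sum_nonneg fun _ _ => sq_nonneg _
  calc _ ≤ _ := pow_le_pow_left₀ (norm_nonneg _) h1 2
    _ ≤ _ := h2
    _ ≤ _ := mul_le_mul_of_nonneg_left h3 h4
    _ = _ := by rw [mass h z]; ring

theorem mv_zero {b : ι → ZMod 2} (hb : ∀ q, word E b q = 0) (y : (V → ZMod p) × (ι → ZMod 2)) :
    mv E b y = (y.1, y.2 + b) := by
  have h1 : ∀ (y' : (V → ZMod p) × (ι → ZMod 2)) (v : V),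
      E.site (y'.1, y'.2 + b) v = E.site y' v := fun y' v => by
    refine Prod.ext rfl ?_
    show (E.site y' v).2 + word E b v = _
    rw [hb, add_zero]
  refine E.ext_site (fun v => ?_) fun i hi => ?_
  · rw [mv, E.site_sw, h1, h1, E.site_sw, E.s0_s0]
  · rw [mv, E.sw_off _ hi]
    show (E.sw y).2 i + b i = y.2 i + b i
    rw [E.sw_off _ hi]

/-- On valid words the phase is a sum of bits of single symbols and a term of the environment. -/
theorem phase (b : ι → ZMod 2) (S : Finset V) (hb : ∀ q, q ∉ S → word E b q = 0) :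
    ∃ c : (ι → ZMod 2) → ZMod 2, ∀ y : (V → ZMod p) × (ι → ZMod 2), (∀ q ∈ S, valid E q y.2) →
      b ⬝ᵥ (E.sw y).2 = ∑ v ∈ S, word E b v ⬝ᵥ E.enc (y.1 v) + c y.2 := by
  refine ⟨fun ω => ∑ i ∈ (univ.image E.e)ᶜ, b i * ω i, fun y hy => ?_⟩
  rw [dotProduct, ← sum_add_sum_compl (univ.image E.e), sum_image fun x _ x' _ h => E.inj h,
    Fintype.sum_prod_type]
  congr 1
  · rw [← sum_subset (subset_univ S)]
    · refine sum_congr rfl fun v hv => ?_
      have h3 : (E.site (E.sw y) v).2 = E.enc (y.1 v) := congrArg Prod.snd (site_valid E (hy v hv))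
      rw [← h3]
      rfl
    · intro v _ hv
      refine sum_eq_zero fun i _ => ?_
      have h3 : b (E.e (v, i)) = 0 := congrFun (hb v hv) i
      rw [h3, zero_mul]
  · refine sum_congr rfl fun i hi => ?_
    rw [E.sw_off]
    simpa using hi

/-- A sum of signs that is not constant. -/
theorem sign_sum {G : Type} [Fintype G] (F : G → ZMod 2) {g g' : G} (h : F g ≠ F g') :
    ‖∑ l, sg (F l)‖ ≤ (Fintype.card G : ℝ) - 2 := by
  classical
  have h0 : g ≠ g' := fun e => h (by rw [e])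
  have h1 : sg (F g) + sg (F g') = 0 := by
    rcases z2_cases (F g) with h2 | h2 <;> rcases z2_cases (F g') with h3 | h3 <;>
      simp_all
  rw [← sum_add_sum_compl {g, g'}, sum_pair h0, h1, zero_add]
  refine (norm_sum_le _ _).trans ?_
  simp only [norm_sg, sum_const, nsmul_eq_mul, mul_one, card_compl, card_pair h0]
  have h2 : 2 ≤ Fintype.card G := by
    rw [← card_pair h0]
    exact card_le_univ _
  rw [Nat.cast_sub h2]
  simp

theorem damp_avg {Ω G : Type} [Fintype Ω] [Fintype G] (sh : G → V → ZMod p)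
    (F : (V → ZMod p) → ZMod 2) (hF : ∀ x, ∃ g g', F (x + sh g) ≠ F (x + sh g'))
    (w : (V → ZMod p) × Ω → ℂ) (hw : ∀ g (y : (V → ZMod p) × Ω), w (y.1 + sh g, y.2) = w y) :
    (Fintype.card G : ℝ) * ‖∑ y : (V → ZMod p) × Ω, sg (F y.1) * w y‖ ≤
      ((Fintype.card G : ℝ) - 2) * ∑ y, ‖w y‖ := by
  have h1 : ∀ g, ∑ y : (V → ZMod p) × Ω, sg (F y.1) * w y =
      ∑ y : (V → ZMod p) × Ω, sg (F (y.1 + sh g)) * w y := fun g => by
    rw [← Equiv.sum_comp ((Equiv.addRight (sh g)).prodCongr (Equiv.refl Ω))]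
    refine sum_congr rfl fun y _ => ?_
    rw [← hw g y]
    rfl
  have h2 : (Fintype.card G : ℂ) * ∑ y : (V → ZMod p) × Ω, sg (F y.1) * w y =
      ∑ y : (V → ZMod p) × Ω, (∑ g, sg (F (y.1 + sh g))) * w y := by
    rw [← nsmul_eq_mul, ← card_univ, ← sum_const, sum_congr rfl fun g _ => h1 g, sum_comm]
    exact sum_congr rfl fun y _ => (sum_mul _ _ _).symm
  have h3 := congrArg norm h2
  rw [norm_mul, Complex.norm_natCast] at h3
  rw [h3, mul_sum]
  refine (norm_sum_le _ _).trans (sum_le_sum fun y _ => ?_)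
  rw [norm_mul]
  obtain ⟨g, g', hg⟩ := hF y.1
  exact mul_le_mul_of_nonneg_right (sign_sum (fun g => F (y.1 + sh g)) hg) (norm_nonneg _)

theorem damp_phase (a : PL ι) (S : Finset V) (h1 : ∀ q, word E a.1 q = 0)
    (h2 : ∀ q, q ∉ S → word E a.2 q = 0) {G : Type} [Fintype G] (sh : G → V → ZMod p)
    (hF : ∀ x : V → ZMod p, ∃ g g', ∑ v ∈ S, word E a.2 v ⬝ᵥ E.enc ((x + sh g) v) ≠
      ∑ v ∈ S, word E a.2 v ⬝ᵥ E.enc ((x + sh g') v))
    {u u' : (V → ZMod p) × (ι → ZMod 2) → ℂ} (hu' : ∀ y, u' y ≠ 0 → ∀ q ∈ S, valid E q y.2)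
    (h : ∀ g (y : (V → ZMod p) × (ι → ZMod 2)), u (y.1 + sh g, y.2) = u y)
    (h' : ∀ g (y : (V → ZMod p) × (ι → ZMod 2)), u' (y.1 + sh g, y.2) = u' y) :
    ‖star u' ⬝ᵥ (lift E (W a) *ᵥ u)‖ ^ 2 ≤
      (1 - 1 / (Fintype.card G : ℝ)) * (nsq u * nsq u') := by
  obtain ⟨c, hc⟩ := phase E a.2 S h2
  have h3 : star u' ⬝ᵥ (lift E (W a) *ᵥ u) = ∑ y : (V → ZMod p) × (ι → ZMod 2),
      sg (∑ v ∈ S, word E a.2 v ⬝ᵥ E.enc (y.1 v)) *
        (star (u' y) * (sg (c y.2 + a.2 ⬝ᵥ a.1) * u (y.1, y.2 + a.1))) := by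
    rw [inner_eq]
    refine sum_congr rfl fun y _ => ?_
    by_cases hy : u' y = 0
    · simp [hy]
    · rw [mv_zero E h1, dotProduct_add, hc y (hu' y hy), add_assoc, sg_add]
      ring
  have h4 := damp_avg sh (fun x => ∑ v ∈ S, word E a.2 v ⬝ᵥ E.enc (x v)) hF
    (fun y : (V → ZMod p) × (ι → ZMod 2) =>
      star (u' y) * (sg (c y.2 + a.2 ⬝ᵥ a.1) * u (y.1, y.2 + a.1))) fun g y => by
      rw [h' g y, h g (y.1, y.2 + a.1)]
  rw [← h3] at h4
  have h5 : ∀ y : (V → ZMod p) × (ι → ZMod 2),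
      ‖star (u' y) * (sg (c y.2 + a.2 ⬝ᵥ a.1) * u (y.1, y.2 + a.1))‖ =
        ‖u' y‖ * ‖u (mv E a.1 y)‖ := fun y => by
    rw [norm_mul, norm_mul, norm_sg, one_mul, norm_star, mv_zero E h1]
  rw [sum_congr rfl fun y _ => h5 y] at h4
  have h6 := sum_mul_sq_le_sq_mul_sq univ (fun y => ‖u' y‖) fun y => ‖u (mv E a.1 y)‖
  rw [nsq_mv] at h6
  have h7 : (2 : ℝ) ≤ Fintype.card G := by
    obtain ⟨g, g', hg⟩ := hF 0
    have h8 := (norm_nonneg _).trans
      (sign_sum (fun g => ∑ v ∈ S, word E a.2 v ⬝ᵥ E.enc ((0 + sh g) v)) hg)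
    linarith
  generalize (Fintype.card G : ℝ) = n at h4 h7
  have h8 := pow_le_pow_left₀ (by positivity) h4 2
  have h9 : 0 ≤ nsq u * nsq u' := mul_nonneg (nsq_nonneg _) (nsq_nonneg _)
  have hn : 0 < n := by linarith
  have h10 : (n - 2) ^ 2 ≤ n ^ 2 * (1 - 1 / n) := by
    field_simp
    nlinarith
  refine le_of_mul_le_mul_left ?_ (pow_pos hn 2)
  calc _ = _ := (mul_pow _ _ _).symm
    _ ≤ _ := h8
    _ = (n - 2) ^ 2 * _ := mul_pow _ _ _
    _ ≤ (n - 2) ^ 2 * (nsq u * nsq u') :=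
      mul_le_mul_of_nonneg_left (h6.trans_eq (mul_comm _ _)) (sq_nonneg _)
    _ ≤ n ^ 2 * (1 - 1 / n) * (nsq u * nsq u') := mul_le_mul_of_nonneg_right h10 h9
    _ = _ := mul_assoc _ _ _

end EncX

/-- Row Enc. -/
theorem enc (h : OddStmt) : EncStmt := by
  intro p _ m V ι _ _ _ _ E hp ht
  refine ⟨EncX.lift_uni E, fun a => (EncX.lift_sl E a).bl, EncX.lift_keep E, EncX.lift_split E,
    fun a K S hne hS hK hD u u' hu hu' => ?_⟩
  obtain ⟨-, hcard, h2⟩ := (h p V K).2 S hK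
  obtain ⟨hon, hodd⟩ := h2 hD
  have h9 : 0 ≤ nsq u * nsq u' := mul_nonneg (nsq_nonneg _) (nsq_nonneg _)
  have hp0 : (1 : ℝ) ≤ p := by exact_mod_cast (Fact.out : p.Prime).one_le
  by_cases h1 : ∀ q, word E a.1 q = 0
  · obtain ⟨q, hq⟩ := hne
    have hq2 : word E a.2 q ≠ 0 := ((EncX.mem_psup E).1 hq).resolve_left fun h' => h' (h1 q)
    have : Fintype (perp K) := Fintype.ofFinite _
    have h3 := EncX.damp_phase E a S h1 (fun v hv => by
      by_contra h'
      exact hv (hS ((EncX.mem_psup E).2 (Or.inr h')))) (G := perp K) (fun l => l.1) (fun x => by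
        obtain ⟨l, hl, hl'⟩ := hodd hp (fun v z => word E a.2 v ⬝ᵥ E.enc z) q (hS hq) (ht _ hq2) x
        exact ⟨⟨l, hl⟩, 0, by simpa using hl'⟩) hu'.2 (fun l => hu.1 l.1 l.2)
        fun l => hu'.1 l.1 l.2
    refine h3.trans (mul_le_mul_of_nonneg_right (sub_le_sub_left ?_ _) h9)
    rw [Nat.card_eq_fintype_card] at hcard
    refine one_div_le_one_div_of_le (by exact_mod_cast Fintype.card_pos) ?_
    exact_mod_cast hcard
  · obtain ⟨q, hq⟩ := not_forall.1 h1
    have hqS : q ∈ S := hS ((EncX.mem_psup E).2 (Or.inl hq))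
    have h3 := EncX.damp_flip E hp a hq (fun y hy => hu.2 y hy q hqS)
      (fun y hy => hu'.2 y hy q hqS) fun c => by
        obtain ⟨l, hl, hl'⟩ := hon q hqS c
        exact ⟨l, hl', hu'.1 l hl⟩
    refine h3.trans (mul_le_mul_of_nonneg_right (sub_le_sub_left ?_ _) h9)
    refine one_div_le_one_div_of_le (by linarith) ?_
    exact le_self_pow₀ hp0 (card_pos.2 ⟨q, hqS⟩).ne'

end Pool.Agent.MP_36f78e_lc.H24N
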