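import Pool.Agent.MP_36f78e_lc.H24N.Spec
import Pool.Agent.MP_36f78e_lc.H46.Basic
import Pool.Agent.MP_36f78e_lc.H46.Four

/-! Operators of large support are exponentially small between vectors with few bad checks. -/

namespace Pool.Agent.MP_36f78e_lc.H24N

open Matrix Finset H46
open scoped Kronecker

namespace Kill

section Core

variable {Y : Type} [Fintype Y]

theorem cs (u v : Y → ℂ) : ‖star u ⬝ᵥ v‖ ^ 2 ≤ nsq u * nsq v := by
  have h1 : ‖star u ⬝ᵥ v‖ ≤ ∑ y, ‖u y‖ * ‖v y‖ := by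
    refine (norm_sum_le _ _).trans (le_of_eq (sum_congr rfl fun y _ => ?_))
    rw [norm_mul, Pi.star_apply, norm_star]
  exact (pow_le_pow_left₀ (norm_nonneg _) h1 2).trans (sum_mul_sq_le_sq_mul_sq _ _ _)

/-- multiplication by a real function -/
def dm (f : Y → ℝ) (u : Y → ℂ) : Y → ℂ := fun y => (f y : ℂ) * u y

theorem dm_comm {A : Matrix Y Y ℂ} {f : Y → ℝ} (h : ∀ y y', A y y' ≠ 0 → f y = f y')
    (u : Y → ℂ) : dm f (A *ᵥ u) = A *ᵥ dm f u := by
  funext y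
  simp only [dm, mulVec, dotProduct, mul_sum]
  refine sum_congr rfl fun y' _ => ?_
  by_cases e : A y y' = 0
  · simp [e]
  · rw [h y y' e]; ring

omit [Fintype Y] in
theorem dm_mul (f g : Y → ℝ) (u : Y → ℂ) : dm (fun y => f y * g y) u = dm f (dm g u) := by
  funext y
  simp only [dm]
  push_cast
  ring

theorem dot_dm (f : Y → ℝ) (u v : Y → ℂ) : star (dm f u) ⬝ᵥ v = star u ⬝ᵥ dm f v := by
  simp only [dm, dotProduct, Pi.star_apply, star_mul', Complex.star_def, Complex.conj_ofReal]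
  exact sum_congr rfl fun y _ => by ring

theorem nsq_dm (f : Y → ℝ) (u : Y → ℂ) : nsq (dm f u) = ∑ y, f y ^ 2 * ‖u y‖ ^ 2 := by
  simp only [nsq, dm, norm_mul, mul_pow, Complex.norm_real, Real.norm_eq_abs, sq_abs]

theorem arith {θ l a b z X W : ℝ} (hθ : 0 ≤ θ) (hl : 0 ≤ l) (ha : 0 ≤ a) (hb : 0 ≤ b) (hz : 0 ≤ z)
    (h1 : X ^ 2 ≤ θ * (a * z)) (h2 : W ^ 2 ≤ z * b) (h3 : z ≤ X + l * W) :
    z ≤ (θ + l ^ 2) * (a + b) := by
  obtain ⟨s, hs, rfl⟩ : ∃ s, 0 ≤ s ∧ θ = s ^ 2 := ⟨√θ, Real.sqrt_nonneg _, (Real.sq_sqrt hθ).symm⟩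
  obtain ⟨α, hα, rfl⟩ : ∃ s, 0 ≤ s ∧ a = s ^ 2 := ⟨√a, Real.sqrt_nonneg _, (Real.sq_sqrt ha).symm⟩
  obtain ⟨β, hβ, rfl⟩ : ∃ s, 0 ≤ s ∧ b = s ^ 2 := ⟨√b, Real.sqrt_nonneg _, (Real.sq_sqrt hb).symm⟩
  obtain ⟨ζ, hζ, rfl⟩ : ∃ s, 0 ≤ s ∧ z = s ^ 2 := ⟨√z, Real.sqrt_nonneg _, (Real.sq_sqrt hz).symm⟩
  have k1 : X ≤ s * α * ζ :=
    le_trans (le_abs_self X) (abs_le_of_sq_le_sq (by nlinarith) (by positivity))
  have k2 : W ≤ ζ * β :=
    le_trans (le_abs_self W) (abs_le_of_sq_le_sq (by nlinarith) (by positivity))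
  have k3 : ζ * ζ ≤ ζ * (s * α + l * β) := by
    have := mul_le_mul_of_nonneg_left k2 hl
    nlinarith
  rcases hζ.eq_or_lt with rfl | hp
  · have : (0 : ℝ) ^ 2 = 0 := by norm_num
    rw [this]
    positivity
  · have k4 := pow_le_pow_left₀ hζ (le_of_mul_le_mul_left k3 hp) 2
    nlinarith [sq_nonneg (s * β - l * α)]

variable [DecidableEq Y]

open Classical in
theorem step {A : Matrix Y Y ℂ} (hA : A ∈ unitaryGroup Y ℂ) (g : Y → Prop) {θ l : ℝ} (hθ : 0 ≤ θ)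
    (hl : 0 ≤ l) (hl1 : l ≤ 1)
    (hd : ∀ u u' : Y → ℂ, (∀ y, u y ≠ 0 → g y) → (∀ y, u' y ≠ 0 → g y) →
      ‖star u' ⬝ᵥ (A *ᵥ u)‖ ^ 2 ≤ θ * (nsq u * nsq u')) (u : Y → ℂ) :
    nsq (dm (fun y => if g y then 1 else l) (A *ᵥ dm (fun y => if g y then 1 else l) u)) ≤
      (θ + 2 * l ^ 2) * nsq u := by
  obtain ⟨a, ha⟩ : ∃ a : Y → ℂ, a = fun y => if g y then u y else 0 := ⟨_, rfl⟩
  obtain ⟨b, hb⟩ : ∃ b : Y → ℂ, b = fun y => if g y then 0 else u y := ⟨_, rfl⟩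
  have e1 : dm (fun y => if g y then 1 else l) u = a + (l : ℂ) • b := by
    funext y
    by_cases h : g y <;> simp [dm, ha, hb, h]
  have e2 : nsq a + nsq b = nsq u := by
    simp only [nsq, ← sum_add_distrib]
    refine sum_congr rfl fun y _ => ?_
    by_cases h : g y <;> simp [ha, hb, h]
  have hl2 : l ^ 2 ≤ 1 := pow_le_one₀ hl hl1
  have e3 : nsq (dm (fun y => if g y then 1 else l) u) ≤ nsq u := by
    rw [nsq_dm]
    refine sum_le_sum fun y _ => mul_le_of_le_one_left (sq_nonneg _) ?_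
    by_cases h : g y <;> simp [h, hl2]
  obtain ⟨w, hw⟩ : ∃ w, w = A *ᵥ dm (fun y => if g y then 1 else l) u := ⟨_, rfl⟩
  have e4 : nsq w ≤ nsq u := by rw [hw, nsq_unitary hA]; exact e3
  obtain ⟨z, hz⟩ : ∃ z : Y → ℂ, z = fun y => if g y then w y else 0 := ⟨_, rfl⟩
  have e5 : nsq (dm (fun y => if g y then 1 else l) w) ≤ nsq z + l ^ 2 * nsq w := by
    rw [nsq_dm, nsq, nsq, mul_sum, ← sum_add_distrib]
    refine sum_le_sum fun y _ => ?_
    by_cases h : g y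
    · have : 0 ≤ l ^ 2 * ‖w y‖ ^ 2 := by positivity
      simpa [hz, h] using this
    · simp [hz, h]
  have e6 : (nsq z : ℂ) = star z ⬝ᵥ (A *ᵥ a) + (l : ℂ) * (star z ⬝ᵥ (A *ᵥ b)) := by
    rw [← smul_eq_mul, ← dotProduct_smul, ← dotProduct_add, ← mulVec_smul, ← mulVec_add, ← e1,
      ← hw, ← nsq_eq]
    refine sum_congr rfl fun y _ => ?_
    by_cases h : g y <;> simp [hz, h]
  have e7 : nsq z ≤ ‖star z ⬝ᵥ (A *ᵥ a)‖ + l * ‖star z ⬝ᵥ (A *ᵥ b)‖ := by
    have h := norm_add_le (star z ⬝ᵥ (A *ᵥ a)) ((l : ℂ) * (star z ⬝ᵥ (A *ᵥ b)))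
    rw [← e6, norm_mul, Complex.norm_real, Complex.norm_real, Real.norm_of_nonneg (nsq_nonneg z),
      Real.norm_of_nonneg hl] at h
    exact h
  have e8 := hd a z (fun y hy => by_contra fun h => hy (by simp [ha, h]))
    (fun y hy => by_contra fun h => hy (by simp [hz, h]))
  have e9 := cs z (A *ᵥ b)
  rw [nsq_unitary hA] at e9
  have k := arith hθ hl (nsq_nonneg a) (nsq_nonneg b) (nsq_nonneg z) e8 e9 e7
  rw [e2] at k
  rw [← hw]
  have := mul_le_mul_of_nonneg_left e4 (sq_nonneg l)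
  linarith

open Classical in
theorem many {V J P : Type} [DecidableEq V] (A : P → Matrix Y Y ℂ) (sup : P → Finset V)
    (S : J → Finset V) (g : J → Y → Prop) {θ l : ℝ} (hθ : 0 ≤ θ) (hl : 0 ≤ l) (hl1 : l ≤ 1)
    (uni : ∀ a, A a ∈ unitaryGroup Y ℂ)
    (keep : ∀ a j y y', A a y y' ≠ 0 → Disjoint (S j) (sup a) → (g j y ↔ g j y'))
    (split : ∀ a (T : Finset V), ∃ a₁ a₂, A a = A a₁ * A a₂ ∧ sup a₁ = sup a ∩ T ∧
      sup a₂ = sup a \ T)
    (damp : ∀ a j, (sup a).Nonempty → sup a ⊆ S j → ∀ u u' : Y → ℂ, (∀ y, u y ≠ 0 → g j y) →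
      (∀ y, u' y ≠ 0 → g j y) → ‖star u' ⬝ᵥ (A a *ᵥ u)‖ ^ 2 ≤ θ * (nsq u * nsq u'))
    (J2 : Finset J) : (∀ j ∈ J2, ∀ j' ∈ J2, j ≠ j' → Disjoint (S j) (S j')) →
    ∀ a, (∀ j ∈ J2, ∃ v ∈ S j, v ∈ sup a) → ∀ u,
      nsq (dm (fun y => ∏ j ∈ J2, if g j y then 1 else l)
        (A a *ᵥ dm (fun y => ∏ j ∈ J2, if g j y then 1 else l) u)) ≤
        (θ + 2 * l ^ 2) ^ J2.card * nsq u := by
  induction J2 using Finset.induction_on with
  | empty =>
    intro _ a _ u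
    have e : ∀ v : Y → ℂ, dm (fun _ => 1) v = v := fun v => funext fun y => by simp [dm]
    simp only [prod_empty, e, card_empty, pow_zero, one_mul]
    exact (nsq_unitary (uni a) u).le
  | insert j J' hj ih =>
    intro hd a ha u
    obtain ⟨a₁, a₂, e, s1, s2⟩ := split a (S j)
    have hdj : ∀ j' ∈ J', Disjoint (S j') (S j) := fun j' h =>
      hd j' (mem_insert_of_mem h) j (mem_insert_self _ _) fun e => hj (e ▸ h)
    have c1 : ∀ v, dm (fun y => ∏ j ∈ J', if g j y then 1 else l) (A a₁ *ᵥ v) =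
        A a₁ *ᵥ dm (fun y => ∏ j ∈ J', if g j y then 1 else l) v :=
      dm_comm fun y y' h => prod_congr rfl fun j' h' => by
        rw [keep a₁ j' y y' h ((hdj j' h').mono_right (s1 ▸ inter_subset_right))]
    have c2 : ∀ v, dm (fun y => if g j y then 1 else l) (A a₂ *ᵥ v) =
        A a₂ *ᵥ dm (fun y => if g j y then 1 else l) v :=
      dm_comm fun y y' h => by rw [keep a₂ j y y' h (s2 ▸ disjoint_sdiff)]
    have c3 : ∀ (f f' : Y → ℝ) v, dm f (dm f' v) = dm f' (dm f v) := fun f f' v => by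
      rw [← dm_mul, ← dm_mul]
      simp only [mul_comm]
    simp only [prod_insert hj, dm_mul]
    rw [e, ← mulVec_mulVec, c1, ← c2, c3 (fun y => ∏ j ∈ J', if g j y then 1 else l),
      card_insert_of_notMem hj, pow_succ', mul_assoc]
    refine (step (uni a₁) (g j) hθ hl hl1 (damp a₁ j ?_ (s1 ▸ inter_subset_right)) _).trans
      (mul_le_mul_of_nonneg_left (ih (fun i hi i' hi' => hd i (mem_insert_of_mem hi) i'
        (mem_insert_of_mem hi')) a₂ (fun j' h' => ?_) u) (by positivity))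
    · obtain ⟨v, h1, h2⟩ := ha j (mem_insert_self _ _)
      exact ⟨v, s1 ▸ mem_inter.2 ⟨h2, h1⟩⟩
    · obtain ⟨v, h1, h2⟩ := ha j' (mem_insert_of_mem h')
      exact ⟨v, h1, s2 ▸ mem_sdiff.2 ⟨h2, disjoint_left.1 (hdj j' h') h1⟩⟩

end Core

theorem family {V J : Type} [DecidableEq V] [Fintype J] (S : J → Finset V) (k : ℕ) (hk : 0 < k)
    (h1 : ∀ j, (S j).card ≤ k) (h2 : ∀ v, (univ.filter fun j => v ∈ S j).card ≤ k)
    (h3 : ∀ v, ∃ j, v ∈ S j) (r : ℕ) : ∀ T : Finset V, r * k ^ 3 ≤ T.card →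
    ∃ J2 : Finset J, J2.card = r ∧ (∀ j ∈ J2, ∀ j' ∈ J2, j ≠ j' → Disjoint (S j) (S j')) ∧
      ∀ j ∈ J2, ∃ v ∈ S j, v ∈ T := by
  classical
  induction r with
  | zero => exact fun T _ => ⟨∅, rfl, by simp, by simp⟩
  | succ r ih =>
    intro T hT
    have hp : 0 < k ^ 3 := by positivity
    obtain ⟨v, hv⟩ : T.Nonempty := card_pos.1 (by nlinarith)
    obtain ⟨j, hj⟩ := h3 v
    obtain ⟨N, hN⟩ : ∃ N, N = (S j).biUnion fun v' =>
      (univ.filter fun j' => v' ∈ S j').biUnion S := ⟨_, rfl⟩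
    have c : N.card ≤ k ^ 3 := by
      rw [hN]
      refine (card_biUnion_le_card_mul _ _ (k * k) fun v' _ => ?_).trans ?_
      · exact (card_biUnion_le_card_mul _ _ k fun j' _ => h1 j').trans
          (Nat.mul_le_mul_right _ (h2 v'))
      · exact (Nat.mul_le_mul_right _ (h1 j)).trans (le_of_eq (by ring))
    obtain ⟨J', e1, e2, e3⟩ := ih (T \ N) (by
      have := le_card_sdiff N T
      rw [add_mul, one_mul] at hT
      omega)
    have d : ∀ j' ∈ J', Disjoint (S j) (S j') := fun j' h => disjoint_left.2 fun x hx hx' => by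
      obtain ⟨y, y1, y2⟩ := e3 j' h
      refine (mem_sdiff.1 y2).2 ?_
      rw [hN]
      exact mem_biUnion.2 ⟨x, hx, mem_biUnion.2 ⟨j', by simpa using hx', y1⟩⟩
    have n : j ∉ J' := fun h => disjoint_left.1 (d j h) hj hj
    refine ⟨insert j J', by rw [card_insert_of_notMem n, e1], fun i hi i' hi' ne => ?_,
      fun i hi => ?_⟩
    · rcases mem_insert.1 hi with a1 | a1 <;> rcases mem_insert.1 hi' with a2 | a2
      · exact absurd (a1.trans a2.symm) ne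
      · exact a1 ▸ d _ a2
      · exact a2 ▸ (d _ a1).symm
      · exact e2 _ a1 _ a2 ne
    · rcases mem_insert.1 hi with rfl | hi
      · exact ⟨v, hj, hv⟩
      · obtain ⟨y, y1, y2⟩ := e3 i hi
        exact ⟨y, y1, (mem_sdiff.1 y2).1⟩

open Classical in
theorem unw {Y J : Type} [Fintype Y] [Fintype J] (g : J → Y → Prop) (J2 : Finset J) {l : ℝ}
    (hl : 0 < l) (hl1 : l ≤ 1) (b : ℕ) (u : Y → ℂ)
    (h : ∀ y, u y ≠ 0 → (univ.filter fun j => ¬ g j y).card ≤ b) :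
    ∃ w, u = dm (fun y => ∏ j ∈ J2, if g j y then 1 else l) w ∧
      nsq w ≤ (1 / l ^ 2) ^ b * nsq u := by
  have hp : ∀ y, (0 : ℝ) < ∏ j ∈ J2, if g j y then 1 else l := fun y =>
    prod_pos fun j _ => by split_ifs; exacts [one_pos, hl]
  refine ⟨dm (fun y => (∏ j ∈ J2, if g j y then 1 else l)⁻¹) u, ?_, ?_⟩
  · rw [← dm_mul]
    funext y
    simp only [dm, mul_inv_cancel₀ (hp y).ne', Complex.ofReal_one, one_mul]
  · rw [nsq_dm, nsq, mul_sum]
    refine sum_le_sum fun y _ => ?_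
    by_cases e : u y = 0
    · simp [e]
    refine mul_le_mul_of_nonneg_right ?_ (sq_nonneg _)
    have k : l ^ b ≤ ∏ j ∈ J2, if g j y then 1 else l := by
      rw [prod_ite, prod_const_one, one_mul, prod_const]
      exact pow_le_pow_of_le_one hl.le hl1
        ((card_le_card (filter_subset_filter _ (subset_univ _))).trans (h y e))
    rw [one_div, inv_pow, inv_pow, ← pow_mul, mul_comm 2 b, pow_mul]
    exact inv_anti₀ (by positivity) (pow_le_pow_left₀ (by positivity) k 2)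

end Kill

open Kill in
theorem kill : KillStmt := by
  intro p hp V J Ω P _ _ _ _ _ C k γ val O sup hk hC hE hF a b r hr u u' hu hu'
  classical
  obtain ⟨f1, -, -, f4⟩ := four_ok p V
  unfold Low nbad at hu hu'
  obtain ⟨U, hU⟩ : ∃ U, U = four p V ⊗ₖ (1 : Matrix Ω Ω ℂ) := ⟨_, rfl⟩
  have uu : U ∈ unitaryGroup ((V → ZMod p) × Ω) ℂ := by
    rw [hU]
    exact kronecker_mem_unitary f1 (one_mem _)
  have us : Uᴴ ∈ unitaryGroup ((V → ZMod p) × Ω) ℂ := Unitary.star_mem uu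
  have u1 : Uᴴ * U = 1 := mem_unitaryGroup_iff'.1 uu
  have u2 : U * Uᴴ = 1 := mem_unitaryGroup_iff.1 uu
  have env : ∀ y z, U y z ≠ 0 → y.2 = z.2 := fun y z h => by
    rw [hU, kroneckerMap_apply] at h
    by_contra e
    exact right_ne_zero_of_mul h (one_apply_ne e)
  have tr : ∀ (A : Matrix ((V → ZMod p) × Ω) ((V → ZMod p) × Ω) ℂ) (v v' : _ → ℂ),
      star v' ⬝ᵥ ((U * A * Uᴴ) *ᵥ v) = star (Uᴴ *ᵥ v') ⬝ᵥ (A *ᵥ (Uᴴ *ᵥ v)) := fun A v v' => by
    rw [star_mulVec, conjTranspose_conjTranspose, ← dotProduct_mulVec, mulVec_mulVec,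
      mulVec_mulVec]
  have fx : ∀ j (v : (V → ZMod p) × Ω → ℂ),
      (∀ y, v y ≠ 0 → y.1 ∈ C.K true j ∧ ∀ q ∈ C.S true j, val q y.2) →
      Fix (C.K true j) (C.S true j) val (Uᴴ *ᵥ v) := fun j v hv => by
    refine ⟨fun l hl y => sum_congr rfl fun z _ => ?_, fun y hy q hq => ?_⟩
    · by_cases e : v z = 0
      · simp [e]
      · have e0 : z.1 ⬝ᵥ l = 0 := hl z.1 (hv z e).1
        simp only [conjTranspose_apply, hU, kroneckerMap_apply, Four.four_add, e0,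
          AddChar.map_zero_eq_one, one_mul]
    · obtain ⟨z, -, hz⟩ := exists_ne_zero_of_sum_ne_zero hy
      have e1 : U z y ≠ 0 := fun e => left_ne_zero_of_mul hz (by simp [e])
      rw [← env z y e1]
      exact (hv z (right_ne_zero_of_mul hz)).2 q hq
  have p1 : (1 : ℝ) ≤ p := by exact_mod_cast hp.out.one_le
  have pk : (1 : ℝ) ≤ (p : ℝ) ^ k := one_le_pow₀ p1
  obtain ⟨l, l0, l2⟩ : ∃ l : ℝ, 0 < l ∧ l ^ 2 = 1 / (4 * (p : ℝ) ^ k) :=
    ⟨√(1 / (4 * (p : ℝ) ^ k)), by positivity, Real.sq_sqrt (by positivity)⟩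
  have l1 : l ≤ 1 := by
    refine le_trans (le_abs_self l) (abs_le_of_sq_le_sq ?_ zero_le_one)
    rw [l2, one_pow, div_le_one (by positivity)]
    linarith
  have θ0 : 0 ≤ 1 - 1 / (p : ℝ) ^ k := by
    rw [sub_nonneg, div_le_one (by positivity)]
    exact pk
  obtain ⟨J2, c1, c2, c3⟩ := family (C.S true) k hk (hC.card_S true) (hC.deg true) hE.cover r _ hr
  have main := many (fun a => U * O a * Uᴴ) sup (C.S true)
    (fun j y => y.1 ∈ C.K true j ∧ ∀ q ∈ C.S true j, val q y.2) θ0 l0.le l1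
    (fun a => mul_mem (mul_mem uu (hF.uni a)) us) ?_ ?_ ?_ J2 c2 a c3
  · rw [← hU] at hu hu'
    obtain ⟨w, w1, w2⟩ := unw (fun j (y : (V → ZMod p) × Ω) =>
      y.1 ∈ C.K true j ∧ ∀ q ∈ C.S true j, val q y.2) J2 l0 l1 b (U *ᵥ u)
      (fun y hy => by convert hu y hy)
    obtain ⟨w', w1', w2'⟩ := unw (fun j (y : (V → ZMod p) × Ω) =>
      y.1 ∈ C.K true j ∧ ∀ q ∈ C.S true j, val q y.2) J2 l0 l1 b (U *ᵥ u')
      (fun y hy => by convert hu' y hy)
    have e := tr (O a) (U *ᵥ u) (U *ᵥ u')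
    have e0 : ∀ v, Uᴴ *ᵥ (U *ᵥ v) = v := fun v => by rw [mulVec_mulVec, u1, one_mulVec]
    rw [e0, e0] at e
    rw [nsq_unitary uu, l2, one_div_one_div] at w2 w2'
    have kk : 1 - 1 / (p : ℝ) ^ k + 2 * l ^ 2 = 1 - 1 / (2 * (p : ℝ) ^ k) := by
      rw [l2]; field_simp; ring
    have k0 : 0 ≤ 1 - 1 / (2 * (p : ℝ) ^ k) := by rw [← kk]; positivity
    rw [← e, w1, w1', dot_dm]
    refine (cs _ _).trans ((mul_le_mul w2' (main w) (nsq_nonneg _)
      (mul_nonneg (by positivity) (nsq_nonneg _))).trans ?_)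
    rw [kk, c1]
    refine (mul_le_mul_of_nonneg_left (mul_le_mul_of_nonneg_left w2 (pow_nonneg k0 r))
      (mul_nonneg (by positivity) (nsq_nonneg _))).trans (le_of_eq ?_)
    rw [two_mul b, pow_add]
    ring
  · intro a j y y' h hd
    have h' := h
    rw [hU] at h'
    have e1 : y.1 - y'.1 ∈ C.K true j := hC.loc true j _ fun v hv =>
      sub_eq_zero.2 (f4 Ω (sup a) (O a) (hF.bl a) y y' h' v (disjoint_left.1 hd hv))
    obtain ⟨z', -, hz'⟩ := exists_ne_zero_of_sum_ne_zero h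
    obtain ⟨z, -, hz⟩ := exists_ne_zero_of_sum_ne_zero (left_ne_zero_of_mul hz')
    have e2 : U y' z' ≠ 0 := fun e => right_ne_zero_of_mul hz' (by simp [e])
    rw [env y z (left_ne_zero_of_mul hz), env y' z' e2]
    refine and_congr ⟨fun m => ?_, fun m => ?_⟩ (forall₂_congr fun q hq =>
      hF.keep a z z' (right_ne_zero_of_mul hz) q (disjoint_left.1 hd hq))
    · simpa using sub_mem m e1
    · simpa using add_mem e1 m
  · intro a T
    obtain ⟨a₁, a₂, e, s1, s2⟩ := hF.split a T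
    refine ⟨a₁, a₂, ?_, s1, s2⟩
    rw [e]
    calc U * (O a₁ * O a₂) * Uᴴ = U * O a₁ * (Uᴴ * U) * O a₂ * Uᴴ := by
          rw [u1, mul_one, mul_assoc U (O a₁)]
      _ = _ := by simp only [mul_assoc]
  · intro a j n s v v' hv hv'
    rw [tr]
    have h := hF.damp a _ _ n s (hC.loc true j) (hE.dist j) _ _ (fx j v hv) (fx j v' hv')
    rw [nsq_unitary us, nsq_unitary us] at h
    refine h.trans (mul_le_mul_of_nonneg_right ?_ (mul_nonneg (nsq_nonneg _) (nsq_nonneg _)))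
    exact sub_le_sub_left (one_div_le_one_div_of_le (by positivity)
      (pow_le_pow_right₀ p1 (hC.card_S true j))) 1

end Pool.Agent.MP_36f78e_lc.H24N
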