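import Pool.Agent.MP_36f78e_lc.H24N.Spec

/-! The local generators, and sums of bits along them. -/

set_option autoImplicit false

namespace Pool.Agent.MP_36f78e_lc.H24N

open Matrix Finset H46

namespace OddRow

variable {F V : Type} [Field F] [Fintype V] [DecidableEq V]

theorem sep (K : Submodule F (V → F)) {z : V → F} (hz : z ∉ K) (a : F) :
    ∃ l ∈ perp K, z ⬝ᵥ l = a := by
  obtain ⟨f, hf, hf'⟩ := Submodule.exists_dual_map_eq_bot_of_notMem hz inferInstance
  have h3 : ∀ g : V → F, g ⬝ᵥ (fun i => f (Pi.single i 1)) = f g := fun g => by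
    conv_rhs => rw [← Finset.univ_sum_single g, map_sum]
    refine sum_congr rfl fun i _ => ?_
    have : (Pi.single i (g i) : V → F) = g i • (Pi.single i 1 : V → F) := by
      rw [← Pi.single_smul, smul_eq_mul, mul_one]
    rw [this, map_smul, smul_eq_mul]
  refine ⟨(a * (f z)⁻¹) • fun i => f (Pi.single i 1), fun g hg => ?_, ?_⟩
  · have : f g = 0 := by
      have := Submodule.mem_map_of_mem (f := f) hg
      rwa [hf', Submodule.mem_bot] at this
    rw [dotProduct_smul, h3, this, smul_zero]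
  · rw [dotProduct_smul, h3, smul_eq_mul, inv_mul_cancel_right₀ hf]

theorem trans (K : Submodule F (V → F)) {v : V} (hv : Pi.single v 1 ∉ K) (a : F) :
    ∃ l ∈ perp K, l v = a := by
  simpa using sep K hv a

omit [Fintype V] in
theorem notMem {K : Submodule F (V → F)} {S : Finset V} (h : Dist K S) {q v : V} (hv : v ∈ S)
    (c : F) (hc : v ≠ q ∨ c = 0) : (Pi.single v 1 - c • Pi.single q 1 : V → F) ∉ K := by
  intro hK
  have := h _ hK v q (fun u _ h1 h2 => by simp [h1, h2]) v hv
  rcases hc with hc | hc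
  · simp [hc] at this
  · simp [hc] at this

end OddRow

open OddRow in
theorem odd : OddStmt := by
  intro p _ V _ _ K
  refine ⟨fun z hz => ?_, fun S hS => ?_⟩
  · by_contra h
    obtain ⟨l, hl, e⟩ := sep K h 1
    exact zero_ne_one ((hz l hl).symm.trans e)
  have sup : ∀ l ∈ perp K, ∀ v, v ∉ S → l v = 0 := fun l hl v hv => by
    have := hl (Pi.single v 1) (hS _ fun u hu => Pi.single_eq_of_ne (ne_of_mem_of_not_mem hu hv) _)
    simpa using this
  refine ⟨sup, ?_, fun hD => ?_⟩
  · have : Nat.card (S → ZMod p) = p ^ S.card := by simp [Nat.card_eq_fintype_card]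
    rw [← this]
    refine Nat.card_le_card_of_injective (fun l : perp K => fun v : S => l.1 v) fun l l' e => ?_
    refine Subtype.ext (funext fun v => ?_)
    by_cases hv : v ∈ S
    · exact congrFun e ⟨v, hv⟩
    · rw [sup _ l.2 v hv, sup _ l'.2 v hv]
  have tr : ∀ q ∈ S, ∀ a, ∃ l ∈ perp K, l q = a := fun q hq =>
    trans K (by simpa using notMem hD (q := q) hq 0 (Or.inr rfl))
  refine ⟨tr, fun hp f q hq hab x => ?_⟩
  by_contra hc
  push Not at hc
  set L := perp (K ⊔ Submodule.span (ZMod p) {Pi.single q 1}) with hL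
  have L1 : ∀ m ∈ L, m ∈ perp K := fun m hm z hz => hm z (Submodule.mem_sup_left hz)
  have L2 : ∀ m ∈ L, m q = 0 := fun m hm => by
    simpa using hm _ (Submodule.mem_sup_right (Submodule.mem_span_singleton_self _))
  have L3 : ∀ v ∈ S, v ≠ q → ∀ a, ∃ m ∈ L, m v = a := fun v hv hne => trans _ fun h => by
    obtain ⟨u, hu, y, hy, e⟩ := Submodule.mem_sup.1 h
    obtain ⟨c, rfl⟩ := Submodule.mem_span_singleton.1 hy
    exact notMem hD hv c (Or.inl hne) (eq_sub_of_add_eq e ▸ hu)
  have : Fintype L := Fintype.ofFinite L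
  have hcard : (Fintype.card L : ZMod 2) = 1 := by
    rw [Module.card_eq_pow_finrank (K := ZMod p), ZMod.card, Nat.cast_pow,
      ZMod.natCast_eq_one_iff_odd.2 ((Fact.out : p.Prime).odd_of_ne_two hp.ne'), one_pow]
  have key : ∀ l ∈ perp K, ∑ v ∈ S, f v (x v) =
      f q (x q + l q) + ∑ v ∈ S.erase q, ∑ m : L, f v (x v + m.1 v) := by
    intro l hl
    have h1 : ∑ m : L, ∑ v ∈ S, f v (x v + (l + m.1) v) = ∑ v ∈ S, f v (x v) := by
      rw [sum_congr rfl fun (m : L) _ => hc _ (add_mem hl (L1 _ m.2)), sum_const, card_univ,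
        nsmul_eq_mul, hcard, one_mul]
    rw [← h1, sum_comm, ← add_sum_erase _ _ hq]
    congr 1
    · have : ∀ m : L, f q (x q + (l + m.1) q) = f q (x q + l q) := fun m => by
        rw [Pi.add_apply, L2 _ m.2, add_zero]
      rw [sum_congr rfl fun m _ => this m, sum_const, card_univ, nsmul_eq_mul, hcard, one_mul]
    · refine sum_congr rfl fun v hv => ?_
      obtain ⟨m₂, h2, e⟩ := L3 v (mem_of_mem_erase hv) (ne_of_mem_erase hv) (l v)
      refine Fintype.sum_equiv (Equiv.addLeft (⟨m₂, h2⟩ : L)) _ _ fun m => ?_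
      simp [e]
  have fin : ∀ a, f q a = f q (x q + 0) := fun a => by
    obtain ⟨l, hl, e⟩ := tr q hq (a - x q)
    have := (key l hl).symm.trans (key 0 (zero_mem _))
    rw [e, add_sub_cancel] at this
    exact add_right_cancel this
  obtain ⟨a, b, hab⟩ := hab
  exact hab ((fin a).trans (fin b).symm)

end Pool.Agent.MP_36f78e_lc.H24N
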