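import Pool.Agent.MP_36f78e_lc.H46.Defs

/-! States reached from a given state by Clifford unitaries and few other gates. -/

namespace Pool.Agent.MP_36f78e_lc.H24N

open Matrix H46

variable {ι : Type} [Fintype ι] [DecidableEq ι]

/-- States obtained from `φ` by Clifford unitaries (free) and arbitrary unitaries on a set `S` of
qubits (cost `|S|`), with total cost `t`. -/
inductive From (φ : St ι) : ℕ → St ι → Prop
  | base : From φ 0 φ
  | cliff {t : ℕ} {ψ : St ι} (U : Op ι) : IsClifford U → From φ t ψ → From φ t (U *ᵥ ψ)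
  | gate {t : ℕ} {ψ : St ι} (S : Finset ι) (U : Op ι) :
      U ∈ Matrix.unitaryGroup (ι → ZMod 2) ℂ → ActsOn S U → From φ t ψ →
        From φ (t + S.card) (U *ᵥ ψ)

end Pool.Agent.MP_36f78e_lc.H24N
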