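import Pool.Agent.MP_36f78e_lc.H24N.Spec
import Pool.Agent.MP_36f78e_lc.H46.Cheb
import Pool.Agent.MP_36f78e_lc.H46.Cone

/-! An approximate projector of small Pauli norm. -/

namespace Pool.Agent.MP_36f78e_lc.H24N

open Matrix Finset H46 Polynomial
open scoped ComplexOrder

namespace L1

variable {ι : Type} [Fintype ι] [DecidableEq ι] {Λ Λ' : ℝ} {A B : Op ι}

theorem mono (h : L1 Λ A) (hle : Λ ≤ Λ') : L1 Λ' A :=
  let ⟨c, h1, h2⟩ := h
  ⟨c, h1, h2.trans hle⟩

theorem nonneg (h : L1 Λ A) : 0 ≤ Λ :=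
  let ⟨_, _, h2⟩ := h
  (sum_nonneg fun _ _ => norm_nonneg _).trans h2

theorem zero : L1 0 (0 : Op ι) := ⟨0, by simp, by simp⟩

theorem add (h : L1 Λ A) (h' : L1 Λ' B) : L1 (Λ + Λ') (A + B) := by
  obtain ⟨c, rfl, h2⟩ := h
  obtain ⟨c', rfl, h2'⟩ := h'
  refine ⟨c + c', by simp [add_smul, sum_add_distrib], ?_⟩
  refine (sum_le_sum fun v _ => norm_add_le (c v) (c' v)).trans ?_
  rw [sum_add_distrib]
  exact add_le_add h2 h2'

theorem smul (h : L1 Λ A) (a : ℂ) : L1 (‖a‖ * Λ) (a • A) := by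
  obtain ⟨c, rfl, h2⟩ := h
  refine ⟨a • c, by simp [smul_sum, smul_smul], ?_⟩
  simp only [Pi.smul_apply, norm_smul, ← mul_sum]
  exact mul_le_mul_of_nonneg_left h2 (norm_nonneg a)

theorem pauli (v : PL ι) : L1 1 (W v) := by
  refine ⟨Pi.single v 1, ?_, ?_⟩
  · rw [sum_eq_single v (fun u _ hu => by simp [hu]) (by simp)]
    simp
  · rw [sum_eq_single v (fun u _ hu => by simp [hu]) (by simp)]
    simp

theorem one : L1 1 (1 : Op ι) := W_zero (ι := ι) ▸ pauli 0

theorem sum {κ : Type} (s : Finset κ) {l : κ → ℝ} {X : κ → Op ι} (h : ∀ k ∈ s, L1 (l k) (X k)) :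
    L1 (∑ k ∈ s, l k) (∑ k ∈ s, X k) := by
  classical
  induction s using Finset.induction_on with
  | empty => simpa using zero
  | insert a s ha ih =>
    rw [sum_insert ha, sum_insert ha]
    exact (h a (mem_insert_self _ _)).add (ih fun k hk => h k (mem_insert_of_mem hk))

theorem mul (h : L1 Λ A) (h' : L1 Λ' B) : L1 (Λ * Λ') (A * B) := by
  have h0 := h.nonneg
  obtain ⟨c, rfl, h2⟩ := h
  obtain ⟨c', rfl, h2'⟩ := h'
  rw [sum_mul_sum]
  refine (sum univ (l := fun u => ∑ v, ‖c u‖ * ‖c' v‖) fun u _ => sum univ fun v _ => ?_).mono ?_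
  · rw [smul_mul_smul_comm, W_mul, smul_smul]
    simpa [norm_sg] using (pauli (u + v)).smul (c u * c' v * sg (u.2 ⬝ᵥ v.1))
  · rw [← sum_mul_sum]
    exact mul_le_mul h2 h2' (sum_nonneg fun _ _ => norm_nonneg _) h0

theorem ct_unitary {U : Op ι} (h : U ∈ unitaryGroup (ι → ZMod 2) ℂ) :
    Uᴴ ∈ unitaryGroup (ι → ZMod 2) ℂ := Unitary.star_mem h

theorem conj_unitary {U V : Op ι} (h : U ∈ unitaryGroup (ι → ZMod 2) ℂ)
    (h' : V ∈ unitaryGroup (ι → ZMod 2) ℂ) : U * V * Uᴴ ∈ unitaryGroup (ι → ZMod 2) ℂ :=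
  mul_mem (mul_mem h h') (ct_unitary h)

/-- A local unitary has small Pauli norm. -/
theorem loc {S : Finset ι} (h : Loc S A) (hA : A ∈ unitaryGroup (ι → ZMod 2) ℂ) :
    L1 (4 ^ S.card) A := by
  classical
  obtain ⟨c, hc, hS⟩ := h.expand
  have hb : ∀ v, ‖c v‖ ≤ 1 := fun v => by
    have h1 : (W v * A).trace = c v * sg (v.2 ⬝ᵥ v.1) * 2 ^ Fintype.card ι := by
      rw [hc, mul_sum, trace_sum, sum_eq_single v]
      · rw [Matrix.mul_smul, W_mul, trace_smul, trace_smul, trace_W, if_pos (pl_add_self v),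
          smul_eq_mul, smul_eq_mul, mul_assoc]
      · intro u _ hu
        rw [Matrix.mul_smul, W_mul, trace_smul, trace_smul, trace_W, if_neg, smul_zero, smul_zero]
        intro e
        exact hu (by rw [← zero_add u, ← pl_add_self v, add_assoc, e, add_zero])
      · simp
    have h2 : ‖(W v * A).trace‖ ≤ 2 ^ Fintype.card ι := by
      refine (norm_sum_le _ _).trans ((sum_le_card_nsmul _ _ 1 fun x _ =>
        entry_norm_bound_of_unitary (mul_mem (W_unitary v) hA) x x).trans ?_)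
      simp
    rw [h1, norm_mul, norm_mul, norm_sg, mul_one, norm_pow, Complex.norm_two] at h2
    exact (mul_le_iff_le_one_left (by positivity)).1 h2
  refine ⟨c, hc, ?_⟩
  have hcard : (univ.filter fun v : PL ι => InS S v).card ≤ 4 ^ S.card := by
    have ht : (univ : Finset ((S → ZMod 2) × (S → ZMod 2))).card = 4 ^ S.card := by
      simp [← mul_pow]
    rw [← ht]
    refine card_le_card_of_injOn (fun v : PL ι => ((fun i : S => v.1 i, fun i : S => v.2 i) :
      (S → ZMod 2) × (S → ZMod 2))) (fun _ _ => mem_coe.2 (mem_univ _)) fun u hu v hv e => ?_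
    have hu' := (mem_filter.1 (mem_coe.1 hu)).2
    have hv' := (mem_filter.1 (mem_coe.1 hv)).2
    refine Prod.ext (funext fun i => ?_) (funext fun i => ?_) <;> by_cases hi : i ∈ S
    · exact congrFun (congrArg Prod.fst e) ⟨i, hi⟩
    · rw [(hu' i hi).1, (hv' i hi).1]
    · exact congrFun (congrArg Prod.snd e) ⟨i, hi⟩
    · rw [(hu' i hi).2, (hv' i hi).2]
  rw [← sum_filter_of_ne (p := fun v : PL ι => InS S v) fun v _ hv => hS v (norm_ne_zero_iff.1 hv)]
  refine (sum_le_card_nsmul _ _ 1 fun v _ => hb v).trans ?_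
  rw [nsmul_eq_mul, mul_one]
  exact_mod_cast hcard

theorem cliff {U : Op ι} (hU : IsClifford U) (h : L1 Λ A) : L1 Λ (U * A * Uᴴ) := by
  obtain ⟨c, rfl, h2⟩ := h
  rw [mul_sum, sum_mul]
  refine (sum univ fun v _ => ?_).mono h2
  obtain ⟨a, b, e, he⟩ := hU.2 v.1 v.2
  have he' : U * W v * Uᴴ = e • W (a, b) := he
  have h1 := entry_norm_bound_of_unitary (conj_unitary hU.1 (W_unitary v)) a 0
  rw [he', Matrix.smul_apply, W_apply, if_pos (zero_add a).symm, norm_smul, norm_sg, mul_one] at h1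
  rw [Matrix.mul_smul, Matrix.smul_mul, he']
  refine (((pauli (a, b)).smul e).smul (c v)).mono ?_
  rw [mul_one]
  exact mul_le_of_le_one_right (norm_nonneg _) h1

theorem gate {S : Finset ι} {U : Op ι} (hU : U ∈ unitaryGroup (ι → ZMod 2) ℂ) (hS : Loc S U)
    (h : L1 Λ A) : L1 (16 ^ S.card * Λ) (U * A * Uᴴ) := by
  refine (((loc hS hU).mul h).mul (loc hS.conjTranspose (ct_unitary hU))).mono (le_of_eq ?_)
  rw [show (16 : ℝ) = 4 * 4 by norm_num, mul_pow]
  ring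

/-- `K` is an approximate projector off the unit vector `ψ`. -/
def Ok (K : Op ι) (ψ : St ι) : Prop :=
  nsq ψ = 1 ∧ K.PosSemidef ∧ (∀ v, qf K v ≤ 3 * nsq v) ∧ K *ᵥ ψ = 0 ∧
    ∀ v, nsq v - ‖star ψ ⬝ᵥ v‖ ^ 2 ≤ qf K v

theorem Ok.conj {K U : Op ι} {ψ : St ι} (h : Ok K ψ) (hU : U ∈ unitaryGroup (ι → ZMod 2) ℂ) :
    Ok (U * K * Uᴴ) (U *ᵥ ψ) := by
  obtain ⟨h0, h1, h2, h3, h4⟩ := h
  have e : ∀ v, qf (U * K * Uᴴ) v = qf K (Uᴴ *ᵥ v) := fun v => by
    rw [← qf_conj, conjTranspose_conjTranspose]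
  refine ⟨(nsq_unitary hU _).trans h0, h1.mul_mul_conjTranspose_same U, fun v => ?_, ?_,
    fun v => ?_⟩
  · rw [e, ← nsq_unitary (ct_unitary hU) v]
    exact h2 _
  · rw [mulVec_mulVec, Matrix.mul_assoc, Cone.ct_mul hU, Matrix.mul_one, ← mulVec_mulVec, h3,
      mulVec_zero]
  · rw [e, ← nsq_unitary (ct_unitary hU) v, star_mulVec, ← dotProduct_mulVec]
    exact h4 _

/-- The real diagonal matrix of a function. -/
noncomputable def dg (g : (ι → ZMod 2) → ℝ) : Op ι := diagonal fun x => (g x : ℂ)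

theorem qf_dg (g : (ι → ZMod 2) → ℝ) (v : St ι) : qf (dg g) v = ∑ x, g x * ‖v x‖ ^ 2 := by
  simp only [qf, dg, dotProduct, mulVec_diagonal, Complex.re_sum, Pi.star_apply]
  refine sum_congr rfl fun x _ => ?_
  rw [mul_left_comm, Complex.star_def, Complex.conj_mul', ← Complex.ofReal_pow,
    ← Complex.ofReal_mul, Complex.ofReal_re]

theorem ok_dg (g : (ι → ZMod 2) → ℝ) (h0 : g 0 = 0) (h : ∀ x, x ≠ 0 → 1 ≤ g x ∧ g x ≤ 3) :
    Ok (dg g) (Pi.single 0 1) := by
  have hb : ∀ x, 0 ≤ g x ∧ g x ≤ 3 := fun x => by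
    by_cases hx : x = 0
    · rw [hx, h0]; norm_num
    · exact ⟨zero_le_one.trans (h x hx).1, (h x hx).2⟩
  refine ⟨(prep ι 0 _ Prep.zero).1, posSemidef_diagonal_iff.2 fun x => ?_, fun v => ?_, ?_,
    fun v => ?_⟩
  · exact_mod_cast (hb x).1
  · rw [qf_dg, nsq, mul_sum]
    exact sum_le_sum fun x _ => mul_le_mul_of_nonneg_right (hb x).2 (sq_nonneg _)
  · funext x
    by_cases hx : x = 0 <;> simp [dg, mulVec_diagonal, hx, h0]
  · have e : star (Pi.single 0 1 : St ι) ⬝ᵥ v = v 0 := by simp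
    rw [e, qf_dg, nsq, ← add_sum_erase _ _ (mem_univ 0), ← add_sum_erase _ _ (mem_univ 0), h0,
      zero_mul, zero_add, add_sub_cancel_left]
    exact sum_le_sum fun x hx =>
      le_mul_of_one_le_left (sq_nonneg _) (h x (ne_of_mem_erase hx)).1

/-- The sign of the bit `i`. -/
noncomputable def sn (i : ι) (x : ι → ZMod 2) : ℝ := if x i = 0 then 1 else -1

theorem dg_sn (i : ι) : dg (sn i) = W ((0, Pi.single i 1) : PL ι) := by
  ext x y
  rw [W_apply, dg, diagonal_apply]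
  simp only [add_zero, single_dotProduct, one_mul, sn]
  split_ifs with h h'
  · rw [← h, h']; simp
  · rw [← h, (z2_cases _).resolve_left h']; simp
  · rfl

section Base

variable {U : Op ι}

/-- The Pauli norm of a conjugated diagonal matrix. -/
def LB (U : Op ι) (Λ : ℝ) (g : (ι → ZMod 2) → ℝ) : Prop := L1 Λ (U * dg g * Uᴴ)

variable {g g' : (ι → ZMod 2) → ℝ}

theorem LB.add (h : LB U Λ g) (h' : LB U Λ' g') : LB U (Λ + Λ') fun x => g x + g' x := by
  have e : dg (fun x => g x + g' x) = dg g + dg g' := by simp [dg, diagonal_add]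
  rw [LB, e, Matrix.mul_add, Matrix.add_mul]
  exact L1.add h h'

theorem LB.smul (h : LB U Λ g) (a : ℝ) : LB U (|a| * Λ) fun x => a * g x := by
  have e : dg (fun x => a * g x) = (a : ℂ) • dg g := by
    ext x y
    simp [dg, diagonal_apply]
  rw [LB, e, Matrix.mul_smul, Matrix.smul_mul]
  simpa using L1.smul h (a : ℂ)

theorem LB.mul (hU : U ∈ unitaryGroup (ι → ZMod 2) ℂ) (h : LB U Λ g) (h' : LB U Λ' g') :
    LB U (Λ * Λ') fun x => g x * g' x := by
  have e : U * dg (fun x => g x * g' x) * Uᴴ = U * dg g * Uᴴ * (U * dg g' * Uᴴ) := by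
    rw [Matrix.mul_assoc (U * dg g), ← Matrix.mul_assoc Uᴴ, ← Matrix.mul_assoc Uᴴ, Cone.ct_mul hU,
      Matrix.one_mul, ← Matrix.mul_assoc, Matrix.mul_assoc U (dg g)]
    simp [dg, diagonal_mul_diagonal]
  rw [LB, e]
  exact L1.mul h h'

theorem LB.one (hU : U ∈ unitaryGroup (ι → ZMod 2) ℂ) : LB U 1 fun _ => 1 := by
  have e : dg (fun _ : ι → ZMod 2 => 1) = 1 := by simp [dg]
  rw [LB, e, Matrix.mul_one, Cone.mul_ct hU]
  exact L1.one

theorem LB.sum {κ : Type} (s : Finset κ) {f : κ → (ι → ZMod 2) → ℝ} (h : ∀ k, LB U Λ (f k)) :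
    LB U (s.card * Λ) fun x => ∑ k ∈ s, f k x := by
  have e : dg (fun x => ∑ k ∈ s, f k x) = ∑ k ∈ s, dg (f k) := by
    ext x y
    by_cases hxy : x = y <;> simp [dg, Matrix.sum_apply, hxy]
  rw [LB, e, mul_sum, sum_mul]
  simpa using L1.sum s (l := fun _ => Λ) fun k _ => h k

theorem LB.cheb (hU : U ∈ unitaryGroup (ι → ZMod 2) ℂ) (h : LB U Λ g) (n : ℕ) :
    LB U ((2 * Λ + 1) ^ n) fun x => (Chebyshev.T ℝ n).eval (g x) := by
  have h0 : 0 ≤ Λ := L1.nonneg h
  induction n using Nat.twoStepInduction with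
  | zero => simpa using LB.one hU
  | one =>
    have h' : LB U (2 * Λ + 1) g := L1.mono h (by linarith)
    simpa using h'
  | more n ih ih' =>
    have e : (fun x => (Chebyshev.T ℝ (n + 2 : ℕ)).eval (g x)) = fun x =>
        2 * (g x * (Chebyshev.T ℝ (n + 1 : ℕ)).eval (g x)) + -1 * (Chebyshev.T ℝ n).eval (g x) := by
      funext x
      push_cast
      rw [Chebyshev.T_add_two]
      simp only [eval_sub, eval_mul, eval_ofNat, eval_X]
      ring
    rw [e]
    refine L1.mono (((h.mul hU ih').smul 2).add (ih.smul (-1))) ?_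
    have h1 : (2 * Λ + 1) ^ n ≤ (2 * Λ + 1) ^ (n + 1) := pow_le_pow_right₀ (by linarith) (by omega)
    rw [pow_succ' _ (n + 1), abs_two, abs_neg, abs_one]
    linarith

theorem base {d m : ℕ} (hU : HasDepth d U) (hM : 0 < Fintype.card ι)
    (hm : Fintype.card ι ≤ 2 * m ^ 2) :
    ∃ K : Op ι, L1 ((16 * 4 ^ 2 ^ d) ^ m) K ∧ Ok K (U *ᵥ Pi.single 0 1) := by
  obtain ⟨hu, B, B', hB, -, -, hc⟩ := cone ι d U hU
  obtain ⟨M, hMe⟩ : ∃ M : ℝ, M = Fintype.card ι := ⟨_, rfl⟩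
  obtain ⟨q, hq⟩ : ∃ q : ℝ, q = 4 ^ 2 ^ d := ⟨_, rfl⟩
  rw [← hq]
  have hq1 : 1 ≤ q := hq ▸ one_le_pow₀ (by norm_num)
  have hM1 : 1 ≤ M := by rw [hMe]; exact_mod_cast hM
  have hM0 : 0 < M := by linarith
  have hm' : M ≤ 2 * (m : ℝ) ^ 2 := by rw [hMe]; exact_mod_cast hm
  have hm0 : m ≠ 0 := by rintro rfl; omega
  have h1 : ∀ i, LB U q (sn i) := fun i => by
    have hl : Loc {i} (W ((0, Pi.single i 1) : PL ι)) := InS.loc fun j hj =>
      ⟨rfl, Pi.single_eq_of_ne (by simpa using hj) _⟩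
    rw [LB, dg_sn]
    refine (loc (hc _ _ hl).1 (conj_unitary hu (W_unitary _))).mono ?_
    rw [singleton_biUnion, hq]
    exact pow_le_pow_right₀ (by norm_num) (hB i)
  have h2 : LB U (3 * q) fun x => 2 / M * 1 + 1 / M * ∑ i, sn i x := by
    refine L1.mono (((LB.one hu).smul (2 / M)).add ((LB.sum univ h1).smul (1 / M))) ?_
    rw [card_univ, ← hMe, abs_of_pos (by positivity), abs_of_pos (by positivity), ← mul_assoc,
      one_div_mul_cancel hM0.ne']
    have : 2 / M ≤ 2 := div_le_self (by norm_num) hM1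
    linarith
  obtain ⟨t, ht⟩ : ∃ t, t = (Chebyshev.T ℝ m).eval (1 + 2 / M) := ⟨_, rfl⟩
  have ht2 : 2 ≤ t := by
    have h := (Cheb.T_ge (2 / M) (by positivity) m).1
    have h' : 1 ≤ (m : ℝ) ^ 2 * (2 / M) := by
      rw [← mul_div_assoc, le_div_iff₀ hM0]
      linarith
    linarith
  have ht0 : 0 < t := by linarith
  have h5 : 0 ≤ 2 / t := by positivity
  have h6 : 2 / t ≤ 1 := (div_le_one ht0).2 ht2
  have h3 := ((LB.one hu).smul 2).add ((h2.cheb hu m).smul (-(2 / t)))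
  refine ⟨_, L1.mono h3 ?_, (ok_dg _ ?_ fun x hx => ?_).conj hu⟩
  · rw [abs_two, abs_neg, abs_of_nonneg h5]
    have a1 : (2 * (3 * q) + 1) ^ m ≤ (7 * q) ^ m := pow_le_pow_left₀ (by positivity) (by linarith) m
    have a2 : 9 * q ≤ (9 * q) ^ m := le_self_pow₀ (by linarith) hm0
    have a3 : (9 * q) ^ m + (7 * q) ^ m ≤ (9 * q + 7 * q) ^ m :=
      pow_add_pow_le (by positivity) (by positivity) hm0
    have a4 : 2 / t * (2 * (3 * q) + 1) ^ m ≤ (2 * (3 * q) + 1) ^ m :=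
      mul_le_of_le_one_left (by positivity) h6
    rw [show 9 * q + 7 * q = 16 * q by ring] at a3
    linarith
  · have e : 2 / M * 1 + 1 / M * ∑ i : ι, sn i 0 = 1 + 2 / M := by
      simp only [sn, Pi.zero_apply, if_true, sum_const, card_univ, nsmul_eq_mul, ← hMe]
      field_simp
      ring
    simp only [e, ← ht]
    field_simp
    ring
  · obtain ⟨i, hi⟩ := Function.ne_iff.1 hx
    have b1 : -M ≤ ∑ i, sn i x := by
      have := card_nsmul_le_sum univ (fun i => sn i x) (-1) fun j _ => by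
        unfold sn; split_ifs <;> norm_num
      simpa [hMe] using this
    have b2 : ∑ i, sn i x ≤ M - 2 := by
      have e1 : sn i x = -1 := if_neg hi
      have e2 := sum_le_card_nsmul (univ.erase i) (fun i => sn i x) 1 fun j _ => by
        unfold sn; split_ifs <;> norm_num
      rw [card_erase_of_mem (mem_univ i), card_univ, nsmul_eq_mul, mul_one, Nat.cast_sub hM,
        ← hMe, Nat.cast_one] at e2
      rw [← add_sum_erase _ _ (mem_univ i), e1]
      linarith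
    have b3 : |2 / M * 1 + 1 / M * ∑ i, sn i x| ≤ 1 := by
      rw [show 2 / M * 1 + 1 / M * ∑ i, sn i x = (2 + ∑ i, sn i x) / M by ring, abs_le,
        le_div_iff₀ hM0, div_le_iff₀ hM0]
      constructor <;> linarith
    have h4 := abs_le.1 (Chebyshev.abs_eval_T_real_le_one m b3)
    constructor <;> nlinarith [h4.1, h4.2]

end Base

end L1

theorem l1 : L1Stmt := by
  intro ι _ _ d t m U ψ hU hψ hM hm
  have key : ∃ K : Op ι, L1 (16 ^ t * (16 * 4 ^ 2 ^ d) ^ m) K ∧ L1.Ok K ψ := by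
    induction hψ with
    | base => simpa using L1.base hU hM hm
    | cliff V hV _ ih =>
      obtain ⟨K, h1, h2⟩ := ih
      exact ⟨_, L1.cliff hV h1, h2.conj hV.1⟩
    | gate S V hV hS _ ih =>
      obtain ⟨K, h1, h2⟩ := ih
      refine ⟨_, (L1.gate hV hS.loc h1).mono (le_of_eq ?_), h2.conj hV⟩
      ring
  obtain ⟨K, h1, h2⟩ := key
  exact ⟨h2.1, K, h1, h2.2⟩

end Pool.Agent.MP_36f78e_lc.H24N
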