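import Pool.Agent.MP_36f78e_lc.H24N.Spec
import Pool.Agent.MP_36f78e_lc.H46.Main

/-! The assembly of both orders. -/

set_option linter.unusedSectionVars false

namespace Pool.Agent.MP_36f78e_lc.H24N

open Matrix Finset H46
open scoped ComplexOrder Kronecker

namespace Main

variable {p m : ℕ} [Fact p.Prime] {V ι : Type} [Fintype V] [DecidableEq V] [Fintype ι]
  [DecidableEq ι] (E : Enc p V ι m)

theorem lift_sum (c : PL ι → ℂ) : ∑ a, c a • lift E (W a) = lift E (∑ a, c a • W a) := by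
  ext y y'
  simp only [lift, Matrix.sum_apply, Matrix.smul_apply, submatrix_apply, kroneckerMap_apply,
    smul_eq_mul, mul_sum, mul_left_comm]

theorem lift_mulVec (K : Op ι) (u : (V → ZMod p) × (ι → ZMod 2) → ℂ)
    (y : (V → ZMod p) × (ι → ZMod 2)) :
    (lift E K *ᵥ u) (E.tau y) = (K *ᵥ fun σ => u (E.tau (y.1, σ))) y.2 := by
  rw [lift, submatrix_mulVec_equiv, E.tau_symm, Function.comp_apply, E.tau_apply, E.tau_apply,
    E.sw_sw, ← diagonal_one, dk_mulVec, one_mul]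
  rfl

theorem qf_lift (K : Op ι) (u : (V → ZMod p) × (ι → ZMod 2) → ℂ) :
    qf (lift E K) u = ∑ x, qf K fun σ => u (E.tau (x, σ)) := by
  simp only [qf, dotProduct, ← Complex.re_sum]
  rw [← E.tau.sum_comp, Fintype.sum_prod_type]
  simp only [lift_mulVec, Pi.star_apply]

theorem nsq_tau (u : (V → ZMod p) × (ι → ZMod 2) → ℂ) :
    nsq u = ∑ x, nsq fun σ => u (E.tau (x, σ)) := by
  simp only [nsq]
  rw [← E.tau.sum_comp, Fintype.sum_prod_type]

theorem lift_psd {K : Op ι} (h : K.PosSemidef) : (lift E K).PosSemidef :=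
  (PosSemidef.one.kronecker h).submatrix _

/-- An injective encoding that fills more than half of the cube spans it affinely. -/
theorem span (hm : 2 ^ m < 2 * p) (t : Fin m → ZMod 2) (ht : t ≠ 0) :
    ∃ a b, t ⬝ᵥ E.enc a ≠ t ⬝ᵥ E.enc b := by
  by_contra h
  push Not at h
  obtain ⟨i, hi⟩ := Function.ne_iff.1 ht
  have h1 : t i = 1 := (z2_cases _).resolve_left hi
  have h2 : Function.Injective fun a : ZMod p × ZMod 2 =>
      E.enc a.1 + (Pi.single i a.2 : Fin m → ZMod 2) := by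
    rintro ⟨a, s⟩ ⟨b, s'⟩ e
    have h3 := congrArg (t ⬝ᵥ ·) e
    simp only [dotProduct_add, dotProduct_single, h1, one_mul, h a b, add_right_inj] at h3
    subst h3
    have h4 : E.enc a = E.enc b := add_right_cancel e
    rw [← E.dec_enc a, h4, E.dec_enc]
  have h5 := Fintype.card_le_of_injective _ h2
  simp only [Fintype.card_prod, ZMod.card, Fintype.card_pi, prod_const, card_univ,
    Fintype.card_fin] at h5
  omega

end Main

open Main in
/-- The lower bound on the energy of a state with an approximate projector of small Pauli norm. -/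
theorem energy2 (hE : EncStmt) (hB : Big2Stmt) (p : ℕ) [Fact p.Prime] (hp : 2 < p) (k : ℕ) (γ : ℝ)
    (hγ : 0 < γ) : ∃ (δ ε : ℝ) (n₀ : ℕ), 0 < δ ∧ 0 < ε ∧
    ∀ (V J ι : Type) [Fintype V] [DecidableEq V] [Fintype J] [Fintype ι] [DecidableEq ι] (m : ℕ)
      (C : Code p V J) (E : Enc p V ι m) (ψ : St ι) (K : Op ι) (Λ : ℝ), n₀ ≤ Fintype.card V →
      C.Good k γ → Extra C → 2 ^ m < 2 * p → nsq ψ = 1 → L1 Λ K →
      Λ ≤ Real.exp (δ * Fintype.card V) → K.PosSemidef → (∀ v, qf K v ≤ 3 * nsq v) → K *ᵥ ψ = 0 →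
      (∀ v, nsq v - ‖star ψ ⬝ᵥ v‖ ^ 2 ≤ qf K v) →
      ε * Fintype.card V ≤ ∑ j : Bool × J, qf (E.hq (C.hm j.1 j.2)) ψ := by
  classical
  obtain ⟨δ, ε, n₀, hδ, hε, hB⟩ := hB p k γ hγ
  refine ⟨δ, ε, n₀, hδ, hε, ?_⟩
  intro V J ι _ _ _ _ _ m C E ψ K Λ hn hC hX hm hψ ⟨c, hc, hcΛ⟩ hΛ k1 k2 k3 k4
  obtain ⟨v, hv⟩ : ∃ v : (V → ZMod p) × (ι → ZMod 2) → ℂ,
      ∀ y, v y = if (E.tau y).1 = 0 then ψ (E.tau y).2 else 0 := ⟨_, fun _ => rfl⟩
  have ht : ∀ y, E.tau (E.tau y) = y := E.sw_sw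
  have hv1 : ∀ x σ, v (E.tau (x, σ)) = if x = 0 then ψ σ else 0 := fun x σ => by rw [hv, ht]
  have h3 : ∀ y, y ∉ Set.range E.emb → v y = 0 := fun y hy => by
    rw [hv]
    exact if_neg fun h => hy (Enc.mem_range_emb h)
  have h4 : v ∘ E.emb = ψ := funext fun σ => (hv1 0 σ).trans (if_pos rfl)
  have h := hB V J (ι → ZMod 2) (PL ι) C (valid E)
    (fun q a ω => (E.s0 (a, word E ω q)).1 = 0) (fun a => lift E (W a)) (psup E) c v hn hC hX
    (hE p m V ι E hp (span E hm))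
    (fun q a ω h1 h2 => (congrArg Prod.fst (if_neg h2 : E.s0 (a, word E ω q) = _)).symm.trans h1)
    (by rw [← nsq_sub' Enc.emb_inj h3, h4, hψ])
    (fun y hy q => by
      have h1 : (E.tau y).1 = 0 := by
        by_contra h'
        exact hy (by rw [hv, if_neg h'])
      exact congrFun h1 q)
    (hcΛ.trans hΛ) (by rw [lift_sum, ← hc]; exact lift_psd E k1)
    (fun u => by
      rw [lift_sum, ← hc, qf_lift, nsq_tau E, mul_sum]
      exact sum_le_sum fun x _ => k2 _)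
    (by
      rw [lift_sum, ← hc]
      funext y
      rw [← ht y, lift_mulVec]
      simp only [hv1]
      by_cases h1 : (E.tau y).1 = 0
      · simp only [h1, if_true]
        exact congrFun k3 _
      · simp only [h1, if_false]
        exact congrFun (mulVec_zero K) _)
    (fun u => by
      rw [lift_sum, ← hc, qf_lift]
      refine le_trans (le_of_eq ?_) ((k4 fun σ => u (E.tau (0, σ))).trans (single_le_sum
        (f := fun x => qf K fun σ => u (E.tau (x, σ))) (fun x _ => qf_nonneg k1 _) (mem_univ 0)))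
      congr 1
      · rw [sum_filter, ← E.tau.sum_comp, Fintype.sum_prod_type, sum_eq_single 0]
        · refine sum_congr rfl fun σ _ => if_pos fun q => ?_
          exact congrFun (congrArg Prod.fst (ht (0, σ))) q
        · intro x _ hx
          refine sum_eq_zero fun σ _ => if_neg fun h1 => hx (funext fun q => ?_)
          exact (congrFun (congrArg Prod.fst (ht (x, σ))) q).symm.trans (h1 q)
        · simp
      · rw [dotProduct, ← E.tau.sum_comp, Fintype.sum_prod_type, sum_eq_single 0]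
        · simp only [Pi.star_apply, hv1, if_true, dotProduct]
        · intro x _ hx
          simp [hv1, hx]
        · simp)
  rw [Fintype.sum_prod_type, ← h4]
  simpa only [Enc.hq, qf_sub' Enc.emb_inj _ h3] using h

theorem expo {t d N : ℕ} {ρ n : ℝ} (h0 : 0 ≤ ρ) (h1 : ρ ≤ 1) (hn : 0 ≤ n) (hN : 0 < N)
    (h2 : (N : ℝ) * 4 ^ d ≤ ρ ^ 2 * n ^ 2) (h3 : (t : ℝ) ≤ ρ ^ 2 * n) :
    (16 : ℝ) ^ t * (16 * 4 ^ 2 ^ d) ^ (Nat.sqrt N + 1) ≤ Real.exp (16 * ρ * n) := by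
  obtain ⟨s, hs⟩ : ∃ s, s = Nat.sqrt N := ⟨_, rfl⟩
  have hs1 : (s : ℝ) * s ≤ N := by exact_mod_cast hs ▸ Nat.sqrt_le _
  have hs3 : (1 : ℝ) ≤ s := by exact_mod_cast hs ▸ Nat.sqrt_pos.2 hN
  have hD : (1 : ℝ) ≤ 2 ^ d := one_le_pow₀ one_le_two
  have h4 : (s : ℝ) * 2 ^ d ≤ ρ * n := by
    refine (abs_le_of_sq_le_sq' ?_ (by positivity)).2
    have h5 : ((2 : ℝ) ^ d) ^ 2 = 4 ^ d := by rw [← pow_mul, mul_comm, pow_mul]; norm_num
    rw [mul_pow, mul_pow, h5]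
    exact le_trans (mul_le_mul_of_nonneg_right (by nlinarith) (by positivity)) h2
  have h5 : (16 : ℝ) ^ t * (16 * 4 ^ 2 ^ d) ^ (s + 1) = 2 ^ (4 * t + (4 + 2 * 2 ^ d) * (s + 1)) := by
    rw [pow_add 2, pow_mul 2 4 t, pow_mul 2 _ (s + 1), pow_add 2 4, pow_mul 2 2]
    norm_num
  have h6 : (2 : ℝ) ≤ Real.exp 1 := by linarith [Real.add_one_le_exp 1]
  rw [← hs, h5]
  refine (pow_le_pow_left₀ zero_le_two h6 _).trans ?_
  rw [← Real.exp_nat_mul, mul_one, Real.exp_le_exp]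
  push_cast
  have h7 : ρ ^ 2 * n ≤ ρ * n := mul_le_mul_of_nonneg_right (by nlinarith) hn
  nlinarith

/-- The main statement from the steps. -/
theorem main (hCode : Code2Stmt) (hF : FourStmt) (hB : BigStmt) (hPrep : PrepStmt)
    (hCone : ConeStmt) (hComp : CompStmt) (hStab : StabStmt) (hL1 : L1Stmt) (hEnc : EncStmt)
    (hB2 : Big2Stmt) :
    ∃ (k : ℕ) (ε c : ℝ), 0 < ε ∧ 0 < c ∧ ∀ n₀ : ℕ, ∃ n : ℕ, n₀ ≤ n ∧
      ∃ (M : ℕ) (h : Fin M → Op (Fin n)) (S : Fin M → Finset (Fin n)), M ≤ n ∧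
        (∀ j, (S j).card ≤ k ∧ ActsOn (S j) (h j) ∧ (h j).PosSemidef ∧ (1 - h j).PosSemidef) ∧
        (∀ q, (Finset.univ.filter fun j => q ∈ S j).card ≤ k) ∧
        (∃ ψ₀ : St (Fin n), ψ₀ ≠ 0 ∧ ∀ j, h j *ᵥ ψ₀ = 0) ∧
        (∀ (a t d : ℕ) (ψ : St (Fin n ⊕ Fin a)) (U : Op (Fin n ⊕ Fin a)), Prep t ψ →
          HasDepth d U → (16 : ℝ) ^ d ≤ c * n → (4 : ℝ) ^ d * t ≤ c * n →
          ε * n ≤ ∑ j, (star (U *ᵥ ψ) ⬝ᵥ (withAnc (Fin a) (h j) *ᵥ (U *ᵥ ψ))).re) ∧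
        ∀ (a t d : ℕ) (ψ : St (Fin n ⊕ Fin a)) (U : Op (Fin n ⊕ Fin a)), HasDepth d U →
          From (U *ᵥ Pi.single 0 1) t ψ → ((n : ℝ) + a) * 4 ^ d ≤ c * n ^ 2 → (t : ℝ) ≤ c * n →
          ε * n ≤ ∑ j, (star ψ ⬝ᵥ (withAnc (Fin a) (h j) *ᵥ ψ)).re := by
  classical
  obtain ⟨p, _, k, γ, hp, hγ, hCode⟩ := hCode
  obtain ⟨δ, ε₂, n₂, hδ, hε₂, hen⟩ := energy2 hEnc hB2 p hp k γ hγ
  obtain ⟨m, hm1, hm2⟩ : ∃ m, p ≤ 2 ^ m ∧ 2 ^ m < 2 * p := by
    refine ⟨Nat.clog 2 p, Nat.le_pow_clog one_lt_two p, ?_⟩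
    have h1 := Nat.pow_pred_clog_lt_self one_lt_two (by omega : 1 < p)
    have h2 := Nat.clog_pos one_lt_two (by omega : 1 < p)
    obtain ⟨r, hr⟩ : ∃ r, Nat.clog 2 p = r + 1 := ⟨Nat.clog 2 p - 1, by omega⟩
    rw [hr, Nat.pred_succ] at h1
    rw [hr, pow_succ]
    omega
  have hm : 2 ≤ m := by
    by_contra h
    have : 2 ^ m ≤ 2 ^ 1 := Nat.pow_le_pow_right two_pos (by omega)
    omega
  obtain ⟨K, hK⟩ : ∃ K, K = 2 * k * m + 1 := ⟨_, rfl⟩
  have hp0 : (0 : ℝ) < m := by exact_mod_cast (by omega : 0 < m)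
  have hK0 : (0 : ℝ) < K := by exact_mod_cast (by omega : 0 < K)
  obtain ⟨ρ, hρ⟩ : ∃ ρ : ℝ, ρ = min 1 (δ / (16 * m)) := ⟨_, rfl⟩
  have hρ0 : 0 < ρ := hρ ▸ lt_min one_pos (by positivity)
  have hρ1 : ρ ≤ 1 := hρ ▸ min_le_left _ _
  have hρ2 : 16 * ρ * m ≤ δ := by
    have : ρ ≤ δ / (16 * m) := hρ ▸ min_le_right _ _
    rw [le_div_iff₀ (by positivity)] at this
    linarith
  refine ⟨K, min (γ / (288 * m)) (ε₂ / m), min (min γ (γ ^ 2) / (576 * m * K ^ 2)) (ρ ^ 2),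
    by positivity, by positivity, fun n₀ => ?_⟩
  obtain ⟨V, J, _, _, _, hn, hJ, C, hC, hX⟩ := hCode (n₀ + n₂ + 1)
  obtain ⟨enc⟩ : Nonempty (ZMod p ↪ (Fin m → ZMod 2)) :=
    Function.Embedding.nonempty_of_card_le (by simpa using hm1)
  obtain ⟨e⟩ : Nonempty (V × Fin m ≃ Fin (Fintype.card V * m)) :=
    ⟨Fintype.equivFinOfCardEq (by simp)⟩
  obtain ⟨f⟩ : Nonempty (Fin (2 * Fintype.card J) ≃ Bool × J) :=
    ⟨(Fintype.equivFinOfCardEq (by simp)).symm⟩
  obtain ⟨E, hE⟩ : ∃ E : Enc p V (Fin (Fintype.card V * m)) m, E.e = e :=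
    ⟨⟨enc, Function.invFun enc, e, Function.leftInverse_invFun enc.injective, e.injective⟩, rfl⟩
  have hs : Function.Surjective E.e := hE ▸ e.surjective
  have hL : ∀ j : Bool × J, Loc (E.blocks (C.S j.1 j.2)) (E.hq (C.hm j.1 j.2)) := fun j =>
    Enc.hq_loc hs (hm_loc hF hC j.1 j.2).1 (hm_loc hF hC j.1 j.2).2
  have hS : ∀ j : Bool × J, (E.blocks (C.S j.1 j.2)).card ≤ K := fun j =>
    (Enc.card_blocks _).trans (by have := hC.card_S j.1 j.2; rw [hK]; nlinarith)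
  have hdeg : ∀ q, (univ.filter fun j : Bool × J => q ∈ E.blocks (C.S j.1 j.2)).card ≤ K := by
    intro q
    obtain ⟨⟨v, i⟩, rfl⟩ := hs q
    have h1 : (univ.filter fun j : Bool × J => E.e (v, i) ∈ E.blocks (C.S j.1 j.2)) ⊆
        (univ : Finset Bool).biUnion fun s => (univ.filter fun j => v ∈ C.S s j).image (s, ·) := by
      intro j hj
      exact mem_biUnion.2 ⟨j.1, mem_univ _, mem_image.2 ⟨j.2,
        mem_filter.2 ⟨mem_univ _, Enc.mem_blocks.1 (mem_filter.1 hj).2⟩, rfl⟩⟩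
    refine (card_le_card h1).trans ((card_biUnion_le_card_mul _ _ k fun s _ =>
      card_image_le.trans (hC.deg s v)).trans ?_)
    rw [card_univ, Fintype.card_bool, hK]
    nlinarith
  have hV0 : (0 : ℝ) ≤ Fintype.card V := by positivity
  have hn0 : (0 : ℝ) ≤ ((Fintype.card V * m : ℕ) : ℝ) := by positivity
  refine ⟨Fintype.card V * m, by nlinarith, 2 * Fintype.card J,
    fun j => E.hq (C.hm (f j).1 (f j).2), fun j => E.blocks (C.S (f j).1 (f j).2), by nlinarith,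
    fun j => ⟨hS _, (hL _).actsOn, Enc.hq_psd (hm_proj hF C _ _)⟩, fun q => ?_, ?_, ?_, ?_⟩
  · refine le_trans (card_le_card_of_injOn f (fun j hj => ?_) f.injective.injOn) (hdeg q)
    simpa using hj
  · obtain ⟨g, hg, hg'⟩ := hm_ground hF hC
    obtain ⟨ψ, hψ, hψ'⟩ := Enc.hq_ground (E := E) hg
    exact ⟨ψ, hψ, fun j => hψ' _ (hg' _ _)⟩
  · intro a t d ψ U hψ hU h1 h2
    replace h1 := h1.trans (mul_le_mul_of_nonneg_right (min_le_left _ _) hn0)
    replace h2 := h2.trans (mul_le_mul_of_nonneg_right (min_le_left _ _) hn0)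
    refine (mul_le_mul_of_nonneg_right (min_le_left _ _) hn0).trans ?_
    have hc1 : min γ (γ ^ 2) ≤ γ := min_le_left _ _
    have hc2 : min γ (γ ^ 2) ≤ γ ^ 2 := min_le_right _ _
    have hcn : 576 * (K : ℝ) ^ 2 * (min γ (γ ^ 2) / (576 * m * K ^ 2) *
        ((Fintype.card V * m : ℕ) : ℝ)) = min γ (γ ^ 2) * Fintype.card V := by
      push_cast
      field_simp
    have h3 := mul_le_mul_of_nonneg_left h1 (by positivity : (0 : ℝ) ≤ 576 * (K : ℝ) ^ 2)
    have h4 := mul_le_mul_of_nonneg_left h2 (by positivity : (0 : ℝ) ≤ 576 * (K : ℝ) ^ 2)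
    rw [hcn] at h3 h4
    have h5 := mul_le_mul_of_nonneg_right hc1 hV0
    have h6 := mul_le_mul_of_nonneg_right hc2 hV0
    have h7 : (0 : ℝ) ≤ (K : ℝ) ^ 2 * 16 ^ d := by positivity
    have h := energy hB hPrep hCone hComp hStab hp hC hγ (by omega) hJ (E.anc (Fin a))
      (fun j => (E.blocks (C.S j.1 j.2)).image Sum.inl) K (by omega)
      (fun j => card_image_le.trans (hS j))
      (by
        rintro (q | q)
        · simpa using hdeg q
        · simp)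
      (fun j => Enc.withAnc_hq (E := E) (Fin a) _ ▸ (hL j).withAnc)
      (fun j => Enc.hq_psd (hm_proj hF C _ _)) hψ hU (by linarith) (by linarith)
    rw [← Equiv.sum_comp f] at h
    simp only [Enc.withAnc_hq]
    refine le_trans (le_of_eq ?_) h
    push_cast
    field_simp
  · intro a t d ψ U hU hψ h1 h2
    replace h1 := h1.trans (mul_le_mul_of_nonneg_right (min_le_right _ _) (sq_nonneg _))
    replace h2 := h2.trans (mul_le_mul_of_nonneg_right (min_le_right _ _) hn0)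
    refine (mul_le_mul_of_nonneg_right (min_le_right _ _) hn0).trans ?_
    have hN : 0 < Fintype.card (Fin (Fintype.card V * m) ⊕ Fin a) := by
      rw [Fintype.card_sum, Fintype.card_fin]
      have : 0 < Fintype.card V * m := Nat.mul_pos (by omega) (by omega)
      omega
    obtain ⟨hψ1, K', k0, k1, k2, k3, k4⟩ := hL1 _ d t
      (Nat.sqrt (Fintype.card (Fin (Fintype.card V * m) ⊕ Fin a)) + 1) U ψ hU hψ hN
      (by nlinarith [Nat.lt_succ_sqrt (Fintype.card (Fin (Fintype.card V * m) ⊕ Fin a))])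
    have h := hen V J _ m C (E.anc (Fin a)) ψ K' _ (by omega) hC hX hm2 hψ1 k0
      ((expo hρ0.le hρ1 hn0 hN (by simpa using h1) h2).trans (Real.exp_le_exp.2 (by
        push_cast
        nlinarith))) k1 k2 k3 k4
    rw [← Equiv.sum_comp f] at h
    simp only [Enc.withAnc_hq]
    refine le_trans (le_of_eq ?_) h
    push_cast
    field_simp

end Pool.Agent.MP_36f78e_lc.H24N
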