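import Pool.Agent.MP_36f78e_lc.H24N.Defs
import Pool.Agent.MP_36f78e_lc.H46.Emb

/-! The internal definitions and the statements of the steps for the reverse order. -/

namespace Pool.Agent.MP_36f78e_lc.H24N

open Matrix Finset H46
open scoped ComplexOrder Kronecker

/-! ### Pauli norm -/

/-- The Pauli coefficients of `A` have absolute sum at most `Λ`. -/
def L1 {ι : Type} [Fintype ι] [DecidableEq ι] (Λ : ℝ) (A : Op ι) : Prop :=
  ∃ c : PL ι → ℂ, A = ∑ v, c v • W v ∧ ∑ v, ‖c v‖ ≤ Λ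

/-- Row L1: an approximate projector of small Pauli norm. -/
def L1Stmt : Prop :=
  ∀ (ι : Type) [Fintype ι] [DecidableEq ι] (d t m : ℕ) (U : Op ι) (ψ : St ι), HasDepth d U →
    From (U *ᵥ Pi.single 0 1) t ψ → 0 < Fintype.card ι → Fintype.card ι ≤ 2 * m ^ 2 →
    nsq ψ = 1 ∧ ∃ K : Op ι, L1 (16 ^ t * (16 * 4 ^ 2 ^ d) ^ m) K ∧ K.PosSemidef ∧
      (∀ v, qf K v ≤ 3 * nsq v) ∧ K *ᵥ ψ = 0 ∧ ∀ v, nsq v - ‖star ψ ⬝ᵥ v‖ ^ 2 ≤ qf K v

/-! ### Codes -/

/-- `K` has no word whose restriction to `S` has weight one or two. -/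
def Dist {F V : Type} [Field F] (K : Submodule F (V → F)) (S : Finset V) : Prop :=
  ∀ u ∈ K, ∀ q q' : V, (∀ v ∈ S, v ≠ q → v ≠ q' → u v = 0) → ∀ v ∈ S, u v = 0

/-- Two more properties of the Fourier side of the code. -/
structure Extra {p : ℕ} [Fact p.Prime] {V J : Type} (C : Code p V J) : Prop where
  cover : ∀ v, ∃ j, v ∈ C.S true j
  dist : ∀ j, Dist (C.K true j) (C.S true j)

/-- Row Code2: good codes with the two extra properties. -/
def Code2Stmt : Prop :=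
  ∃ (p : ℕ) (_ : Fact p.Prime) (k : ℕ) (γ : ℝ), 2 < p ∧ 0 < γ ∧ ∀ n₀ : ℕ,
    ∃ (V J : Type) (_ : Fintype V) (_ : DecidableEq V) (_ : Fintype J),
      n₀ ≤ Fintype.card V ∧ Fintype.card J ≤ Fintype.card V ∧
        ∃ C : Code p V J, C.Good k γ ∧ Extra C

/-- The orthogonal complement for the dot product. -/
def perp {F V : Type} [Field F] [Fintype V] (K : Submodule F (V → F)) : Submodule F (V → F) where
  carrier := {l | ∀ z ∈ K, z ⬝ᵥ l = 0}
  add_mem' := fun {a b} ha hb z hz => by rw [dotProduct_add, ha z hz, hb z hz, add_zero]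
  zero_mem' := fun z _ => dotProduct_zero z
  smul_mem' := fun c a ha z hz => by rw [dotProduct_smul, ha z hz, smul_zero]

/-- Row Odd: the local generators (double complement, support, size, transitivity) and the fact
that a sum of bits of single symbols is not constant along them. -/
def OddStmt : Prop :=
  ∀ (p : ℕ) [Fact p.Prime] (V : Type) [Fintype V] [DecidableEq V]
    (K : Submodule (ZMod p) (V → ZMod p)),
    (∀ z, (∀ l ∈ perp K, z ⬝ᵥ l = 0) → z ∈ K) ∧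
    ∀ S : Finset V, (∀ u : V → ZMod p, (∀ v ∈ S, u v = 0) → u ∈ K) →
      (∀ l ∈ perp K, ∀ v, v ∉ S → l v = 0) ∧ Nat.card (perp K) ≤ p ^ S.card ∧
      (Dist K S → (∀ q ∈ S, ∀ a, ∃ l ∈ perp K, l q = a) ∧
        (2 < p → ∀ (f : V → ZMod p → ZMod 2) (q : V), q ∈ S → (∃ a b, f q a ≠ f q b) →
          ∀ x : V → ZMod p, ∃ l ∈ perp K, ∑ v ∈ S, f v (x v + l v) ≠ ∑ v ∈ S, f v (x v)))

/-! ### Families of operators on qudits and an environment -/

section Fam

variable {p : ℕ} [Fact p.Prime] {V Ω : Type} [Fintype V] [DecidableEq V] [Fintype Ω]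
  [DecidableEq Ω]

/-- `u` is invariant under the shifts by the complement of `K` and lives on valid words at `S`. -/
def Fix (K : Submodule (ZMod p) (V → ZMod p)) (S : Finset V) (val : V → Ω → Prop)
    (u : (V → ZMod p) × Ω → ℂ) : Prop :=
  (∀ l ∈ perp K, ∀ y : (V → ZMod p) × Ω, u (y.1 + l, y.2) = u y) ∧
    ∀ y, u y ≠ 0 → ∀ q ∈ S, val q y.2

/-- A family of unitaries with supports that splits along sets of sites and is damped on the
vectors fixed by a local code. -/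
structure Fam {P : Type} (val : V → Ω → Prop)
    (O : P → Matrix ((V → ZMod p) × Ω) ((V → ZMod p) × Ω) ℂ) (sup : P → Finset V) : Prop where
  uni : ∀ a, O a ∈ unitaryGroup ((V → ZMod p) × Ω) ℂ
  bl : ∀ a, BL (sup a) (O a)
  keep : ∀ a y y', O a y y' ≠ 0 → ∀ q, q ∉ sup a → (val q y.2 ↔ val q y'.2)
  split : ∀ a (S : Finset V), ∃ a₁ a₂, O a = O a₁ * O a₂ ∧ sup a₁ = sup a ∩ S ∧ sup a₂ = sup a \ S
  damp : ∀ a (K : Submodule (ZMod p) (V → ZMod p)) (S : Finset V), (sup a).Nonempty → sup a ⊆ S →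
    (∀ u : V → ZMod p, (∀ v ∈ S, u v = 0) → u ∈ K) → Dist K S → ∀ u u', Fix K S val u →
    Fix K S val u' →
    ‖star u' ⬝ᵥ (O a *ᵥ u)‖ ^ 2 ≤ (1 - 1 / (p : ℝ) ^ S.card) * (nsq u * nsq u')

open Classical in
/-- The number of Fourier checks that are violated or see an invalid word. -/
noncomputable def nbad {J : Type} [Fintype J] (C : Code p V J) (val : V → Ω → Prop)
    (y : (V → ZMod p) × Ω) : ℕ :=
  (univ.filter fun j => ¬ (y.1 ∈ C.K true j ∧ ∀ q ∈ C.S true j, val q y.2)).card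

/-- The Fourier transform of `u` lives on strings with at most `b` bad checks. -/
def Low {J : Type} [Fintype J] (C : Code p V J) (val : V → Ω → Prop) (b : ℕ)
    (u : (V → ZMod p) × Ω → ℂ) : Prop :=
  ∀ y, ((four p V ⊗ₖ (1 : Matrix Ω Ω ℂ)) *ᵥ u) y ≠ 0 → nbad C val y ≤ b

end Fam

/-- Row Kill: operators of large support are exponentially small between vectors with few bad
checks. -/
def KillStmt : Prop :=
  ∀ (p : ℕ) [Fact p.Prime] (V J Ω P : Type) [Fintype V] [DecidableEq V] [Fintype J] [Fintype Ω]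
    [DecidableEq Ω] (C : Code p V J) (k : ℕ) (γ : ℝ) (val : V → Ω → Prop)
    (O : P → Matrix ((V → ZMod p) × Ω) ((V → ZMod p) × Ω) ℂ) (sup : P → Finset V),
    0 < k → C.Good k γ → Extra C → Fam val O sup → ∀ (a : P) (b r : ℕ), r * k ^ 3 ≤ (sup a).card →
    ∀ u u', Low C val b u → Low C val b u' →
      ‖star u' ⬝ᵥ (O a *ᵥ u)‖ ^ 2 ≤
        (4 * (p : ℝ) ^ k) ^ (2 * b) * (1 - 1 / (2 * (p : ℝ) ^ k)) ^ r * (nsq u * nsq u')

open Classical in
/-- Row Big2: a vector with an approximate projector of small norm over such a family has large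
energy. -/
def Big2Stmt : Prop :=
  ∀ (p : ℕ) [Fact p.Prime] (k : ℕ) (γ : ℝ), 0 < γ → ∃ (δ ε : ℝ) (n₀ : ℕ), 0 < δ ∧ 0 < ε ∧
    ∀ (V J Ω P : Type) [Fintype V] [DecidableEq V] [Fintype J] [Fintype Ω] [DecidableEq Ω]
      [Fintype P] (C : Code p V J) (val : V → Ω → Prop) (z : V → ZMod p → Ω → Prop)
      (O : P → Matrix ((V → ZMod p) × Ω) ((V → ZMod p) × Ω) ℂ) (sup : P → Finset V) (c : P → ℂ)
      (v : (V → ZMod p) × Ω → ℂ), n₀ ≤ Fintype.card V → C.Good k γ → Extra C → Fam val O sup →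
      (∀ q a ω, z q a ω → ¬ val q ω → a = 0) → nsq v = 1 →
      (∀ y, v y ≠ 0 → ∀ q, z q (y.1 q) y.2) → ∑ a, ‖c a‖ ≤ Real.exp (δ * Fintype.card V) →
      (∑ a, c a • O a).PosSemidef → (∀ u, qf (∑ a, c a • O a) u ≤ 3 * nsq u) →
      (∑ a, c a • O a) *ᵥ v = 0 →
      (∀ u : (V → ZMod p) × Ω → ℂ,
        ∑ y ∈ univ.filter (fun y : (V → ZMod p) × Ω => ∀ q, z q (y.1 q) y.2), ‖u y‖ ^ 2 -
          ‖star v ⬝ᵥ u‖ ^ 2 ≤ qf (∑ a, c a • O a) u) →
      ε * Fintype.card V ≤ ∑ s, ∑ j, qf (C.hm s j ⊗ₖ (1 : Matrix Ω Ω ℂ)) v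

/-! ### The encoding of qudits in qubits -/

section Enc

variable {p m : ℕ} {V ι : Type} (E : Enc p V ι m)

/-- The word of the site `q`. -/
def word (ω : ι → ZMod 2) (q : V) : Fin m → ZMod 2 := fun i => ω (E.e (q, i))

/-- The word of the site `q` encodes a symbol. -/
def valid (q : V) (ω : ι → ZMod 2) : Prop := E.enc (E.dec (word E ω q)) = word E ω q

/-- The operator `1 ⊗ A` conjugated by the swap. -/
noncomputable def lift [Fintype V] [DecidableEq V] (A : Op ι) :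
    Matrix ((V → ZMod p) × (ι → ZMod 2)) ((V → ZMod p) × (ι → ZMod 2)) ℂ :=
  ((1 : Matrix (V → ZMod p) (V → ZMod p) ℂ) ⊗ₖ A).submatrix E.tau E.tau

open Classical in
/-- The sites at which a Pauli label is not trivial. -/
noncomputable def psup [Fintype V] (a : PL ι) : Finset V :=
  univ.filter fun q => word E a.1 q ≠ 0 ∨ word E a.2 q ≠ 0

end Enc

/-- Row Enc: the lifted Pauli operators form such a family. -/
def EncStmt : Prop :=
  ∀ (p : ℕ) [Fact p.Prime] (m : ℕ) (V ι : Type) [Fintype V] [DecidableEq V] [Fintype ι]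
    [DecidableEq ι] (E : Enc p V ι m), 2 < p →
    (∀ t : Fin m → ZMod 2, t ≠ 0 → ∃ a b, t ⬝ᵥ E.enc a ≠ t ⬝ᵥ E.enc b) →
    Fam (valid E) (fun a : PL ι => lift E (W a)) (psup E)

end Pool.Agent.MP_36f78e_lc.H24N
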